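import Pool.Agent.HadM.Param

set_option autoImplicit false

namespace Pool.Agent.HadM

open Pool.Agent.HadL

/-- the scales of the chain -/
def scale5 (A₀ : ℕ) : ℕ → ℕ
  | 0 => A₀
  | j + 1 => (3 * scale5 A₀ j - 8) / 2

theorem scale5_grow (A₀ : ℕ) (h : 48 ≤ A₀) (t : ℕ) : 2 ^ t * A₀ ≤ scale5 A₀ (2 * t) := by
  induction t with
  | zero => simp [scale5]
  | succ t ih =>
    have h1 : A₀ ≤ 2 ^ t * A₀ := Nat.le_mul_of_pos_left _ (by positivity)
    have h2 : scale5 A₀ (2 * (t + 1)) = (3 * ((3 * scale5 A₀ (2 * t) - 8) / 2) - 8) / 2 := rfl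
    rw [h2, pow_succ]
    have h3 : 2 ^ t * 2 * A₀ = 2 * (2 ^ t * A₀) := by ring
    omega

private theorem M13_zero {P : ℕ → ℕ → Prop} (hP : Rules P) (w s A Y : ℕ) (hws : w ≤ s)
    (hw : ∀ n, 0 < n → n < 2 ^ (A + 1) → P w n) (h1 : 1 ≤ Y) (hY : Y ≤ 2 ^ A) :
    badc P s Y = 0 := by
  classical
  unfold badc
  rw [Finset.card_eq_zero, Finset.filter_eq_empty_iff]
  intro n hn
  rw [Finset.mem_Ico] at hn
  rw [not_not]
  refine hP.mono hws (hw n (by omega) ?_)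
  rw [pow_succ]
  omega

/-- the arithmetic of one step -/
private theorem M13_arith (J j lam β₀ β : ℕ) (hJ : 1 ≤ J) (hj : j + 1 ≤ J) (hββ : β₀ ≤ β)
    (E δ η : ℚ) (hE : E = 2 ^ 23 * (J : ℚ) ^ 2 * (lam : ℚ) ^ 8 / 2 ^ β₀)
    (hδ : δ = j * J * E) (hη : η = 1 / (2 * J)) :
    2 ^ 21 * (lam : ℚ) ^ 8 / (η ^ 2 * 2 ^ β) + δ / (1 - η) ≤ ((j + 1 : ℕ) : ℚ) * J * E := by
  have hJq : (1 : ℚ) ≤ J := by exact_mod_cast hJ
  have hjq : (j : ℚ) + 1 ≤ J := by exact_mod_cast hj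
  have hj0 : (0 : ℚ) ≤ j := by positivity
  have hE0 : 0 ≤ E := by rw [hE]; positivity
  have h1 : 2 ^ 21 * (lam : ℚ) ^ 8 / (η ^ 2 * 2 ^ β) ≤ E := by
    have e : 2 ^ 21 * (lam : ℚ) ^ 8 / (η ^ 2 * 2 ^ β) =
        2 ^ 23 * (J : ℚ) ^ 2 * (lam : ℚ) ^ 8 / 2 ^ β := by
      rw [hη]
      have : (J : ℚ) ≠ 0 := by linarith
      field_simp
    rw [e, hE]
    apply div_le_div_of_nonneg_left (by positivity) (by positivity)
    exact pow_le_pow_right₀ (by norm_num) hββ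
  have h2 : δ / (1 - η) ≤ δ * (1 + 1 / J) := by
    have hδ0 : 0 ≤ δ := by rw [hδ]; positivity
    have hη1 : 0 < 1 - η := by
      rw [hη]
      have : 1 / (2 * (J : ℚ)) ≤ 1 / 2 := by
        apply one_div_le_one_div_of_le (by norm_num)
        linarith
      linarith
    rw [div_le_iff₀ hη1, mul_assoc]
    have h3 : 1 ≤ (1 + 1 / (J : ℚ)) * (1 - η) := by
      rw [hη]
      have hJ0 : (0 : ℚ) < J := by linarith
      have e : (1 + 1 / (J : ℚ)) * (1 - 1 / (2 * J)) = ((J + 1) * (2 * J - 1)) / (2 * J ^ 2) := by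
        field_simp
      rw [e, le_div_iff₀ (by positivity)]
      nlinarith
    calc δ = δ * 1 := by ring
      _ ≤ _ := mul_le_mul_of_nonneg_left h3 hδ0
  have h3 : δ * (1 + 1 / J) = j * J * E + j * E := by
    rw [hδ]
    have : (J : ℚ) ≠ 0 := by linarith
    field_simp
  rw [h3] at h2
  have h4 : E * ((j : ℚ) + 1) ≤ E * J := mul_le_mul_of_nonneg_left hjq hE0
  push_cast
  nlinarith

theorem chain5 {P : ℕ → ℕ → Prop} (hP : Rules P) (L lam β₀ J w : ℕ) (hL : L < 2 ^ lam)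
    (hβ : 11 ≤ β₀) (hJ : 1 ≤ J)
    (hw : ∀ n, 0 < n → n < 2 ^ (8 * 4 ^ β₀ + 1) → P w n)
    (hbig : 2 ^ 30 * J ^ 4 * lam ^ 12 ≤ 2 ^ β₀) :
    ∀ j, j ≤ J → ∀ Y, 1 ≤ Y → Y ≤ 2 ^ (scale5 (8 * 4 ^ β₀) j) → Y ≤ 2 ^ L →
      (badc P (w + 10 * j) Y : ℚ) ≤
        (j * J * (2 ^ 23 * (J : ℚ) ^ 2 * (lam : ℚ) ^ 8 / 2 ^ β₀)) * Y := by
  intro j
  induction j with
  | zero =>
    intro _ Y h1 hY _
    simp only [scale5] at hY
    rw [M13_zero hP w (w + 10 * 0) (8 * 4 ^ β₀) Y (by omega) hw h1 hY]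
    simp
  | succ j ih =>
    intro hj Y h1 hY hYL
    obtain ⟨E, hE⟩ : ∃ E : ℚ, E = 2 ^ 23 * (J : ℚ) ^ 2 * (lam : ℚ) ^ 8 / 2 ^ β₀ := ⟨_, rfl⟩
    rw [← hE] at ih ⊢
    have hE0 : 0 ≤ E := by rw [hE]; positivity
    rcases Nat.lt_or_ge (2 ^ (8 * 4 ^ β₀)) Y with hbigY | hsm
    · -- the main case
      obtain ⟨x, hx⟩ : ∃ x, x = scale5 (8 * 4 ^ β₀) j := ⟨_, rfl⟩
      have hsc : scale5 (8 * 4 ^ β₀) (j + 1) = (3 * x - 8) / 2 := by rw [hx]; rfl
      rw [hsc] at hY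
      obtain ⟨i, hi⟩ : ∃ i, i = Nat.log 2 Y := ⟨_, rfl⟩
      have hi1 : 2 ^ i ≤ Y := by rw [hi]; exact Nat.pow_log_le_self 2 (by omega)
      have hi2 : Y < 2 ^ (i + 1) := by rw [hi]; exact Nat.lt_pow_succ_log_self (by norm_num) Y
      have hiA : 8 * 4 ^ β₀ ≤ i := by
        by_contra hlt
        have : 2 ^ (i + 1) ≤ 2 ^ (8 * 4 ^ β₀) := Nat.pow_le_pow_right (by norm_num) (by omega)
        omega
      have hix : i ≤ (3 * x - 8) / 2 := by
        have : 2 ^ i ≤ 2 ^ ((3 * x - 8) / 2) := hi1.trans hY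
        exact (Nat.pow_le_pow_iff_right (by norm_num)).1 this
      have hiL : i ≤ L := by
        have : 2 ^ i ≤ 2 ^ L := hi1.trans hYL
        exact (Nat.pow_le_pow_iff_right (by norm_num)).1 this
      have h4p : 2048 ≤ 4 ^ β₀ := by
        calc 2048 ≤ 4 ^ 11 := by norm_num
          _ ≤ 4 ^ β₀ := Nat.pow_le_pow_right (by norm_num) hβ
      obtain ⟨k, hk⟩ : ∃ k, k = (i - 1) / 3 := ⟨_, rfl⟩
      obtain ⟨β, hβd⟩ : ∃ β, β = Nat.log 4 (k / 2) := ⟨_, rfl⟩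
      have hk2 : 4 ^ β₀ ≤ k / 2 := by omega
      have hβ1 : 4 ^ β ≤ k / 2 := by
        rw [hβd]; exact Nat.pow_log_le_self 4 (by omega)
      have hβ2 : k / 2 < 4 ^ (β + 1) := by
        rw [hβd]; exact Nat.lt_pow_succ_log_self (by norm_num) _
      have hββ : β₀ ≤ β := by
        have h3 : 4 ^ β₀ < 4 ^ (β + 1) := lt_of_le_of_lt hk2 hβ2
        have h4 := (Nat.pow_lt_pow_iff_right (by norm_num : 1 < 4)).1 h3
        omega
      have h4s : 4 ^ (β + 1) = 4 * 4 ^ β := by ring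
      have hβlam : β ≤ lam := by
        have h3 : 2 ^ β < 2 ^ lam := by
          calc 2 ^ β ≤ 4 ^ β := Nat.pow_le_pow_left (by norm_num) β
            _ ≤ L := by omega
            _ < 2 ^ lam := hL
        exact ((Nat.pow_lt_pow_iff_right (by norm_num : 1 < 2)).1 h3).le
      have hN : 2 * 8 ^ k ≤ Y := by
        have : 2 * 8 ^ k = 2 ^ (3 * k + 1) := by
          rw [show (8 : ℕ) = 2 ^ 3 by norm_num, ← pow_mul, pow_succ]
          ring
        rw [this]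
        exact le_trans (Nat.pow_le_pow_right (by norm_num) (by omega)) hi1
      obtain ⟨δ, hδd⟩ : ∃ δ : ℚ, δ = j * J * E := ⟨_, rfl⟩
      obtain ⟨η, hηd⟩ : ∃ η : ℚ, η = 1 / (2 * J) := ⟨_, rfl⟩
      have hJq : (1 : ℚ) ≤ J := by exact_mod_cast hJ
      have hδ0 : 0 ≤ δ := by rw [hδd]; positivity
      have hη0 : 0 < η := by rw [hηd]; positivity
      have hη1 : 2 * η ≤ 1 := by
        have e : 2 * η = 1 / J := by
          rw [hηd]
          have : (J : ℚ) ≠ 0 := by linarith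
          field_simp
        rw [e, div_le_one (by linarith)]
        exact hJq
      have hδl : 128 * (lam : ℚ) ^ 4 * δ ≤ 1 := by
        have hjJ : (j : ℚ) ≤ J := by exact_mod_cast (by omega : j ≤ J)
        have hδ1 : δ ≤ J * J * E := by
          rw [hδd]
          gcongr
        have hq : (2 : ℚ) ^ 30 * (J : ℚ) ^ 4 * (lam : ℚ) ^ 12 ≤ 2 ^ β₀ := by exact_mod_cast hbig
        calc 128 * (lam : ℚ) ^ 4 * δ ≤ 128 * (lam : ℚ) ^ 4 * (J * J * E) := by gcongr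
          _ = (2 ^ 30 * (J : ℚ) ^ 4 * (lam : ℚ) ^ 12) / 2 ^ β₀ := by rw [hE]; ring
          _ ≤ 1 := by
              rw [div_le_one (by positivity)]
              exact hq
      have ihj := ih (by omega)
      rw [← hx, ← hδd] at ihj
      have hK : (badc P (w + 10 * j) (2 ^ k) : ℚ) ≤ δ * 2 ^ k := by
        have := ihj (2 ^ k) Nat.one_le_two_pow (Nat.pow_le_pow_right (by norm_num) (by omega))
          (Nat.pow_le_pow_right (by norm_num) (by omega))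
        push_cast at this
        exact this
      have hYY : ∀ Y', 1 ≤ Y' → Y' * 2 ^ k ≤ Y → (badc P (w + 10 * j) Y' : ℚ) ≤ δ * Y' := by
        intro Y' h1' hle
        have h5 : Y' ≤ 2 ^ (i + 1 - k) := by
          have h6 : Y' * 2 ^ k ≤ 2 ^ (i + 1 - k) * 2 ^ k := by
            rw [← pow_add, show i + 1 - k + k = i + 1 by omega]
            omega
          exact Nat.le_of_mul_le_mul_right h6 (by positivity)
        refine ihj Y' h1' (h5.trans (Nat.pow_le_pow_right (by norm_num) (by omega))) ?_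
        have h7 : Y' * 1 ≤ Y' * 2 ^ k := Nat.mul_le_mul_left _ Nat.one_le_two_pow
        omega
      have hst := step_param hP (w + 10 * j) k β lam Y δ η (by omega) (by omega) (by omega)
        hβlam hN hδ0 hδl hη0 hη1 hK hYY
      rw [show w + 10 * j + 10 = w + 10 * (j + 1) by ring] at hst
      refine hst.trans ?_
      rw [mul_comm (Y : ℚ)]
      exact mul_le_mul_of_nonneg_right
        (M13_arith J j lam β₀ β hJ hj hββ E δ η hE hδd hηd) (by positivity)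
    · rw [M13_zero hP w (w + 10 * (j + 1)) (8 * 4 ^ β₀) Y (by omega) hw h1 hsm]
      simp only [Nat.cast_zero]
      positivity

end Pool.Agent.HadM
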