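import Pool.Agent.HadL.Final

set_option autoImplicit false

namespace Pool.Agent.HadM

open Pool.Agent.HadL

/-- the number of `n` in `[Y, 2 Y)` with `¬ P s n` -/
noncomputable def badc (P : ℕ → ℕ → Prop) (s Y : ℕ) : ℕ := by
  classical
  exact ((Finset.Ico Y (2 * Y)).filter (fun n => ¬ P s n)).card

/-- the number of representations with a bad cofactor -/
noncomputable def repBad (P : ℕ → ℕ → Prop) (s : ℕ) (C R : Finset ℕ) (m : ℕ) : ℕ := by
  classical
  exact ((C ×ˢ R).filter (fun q => m ≡ q.2 [MOD q.1] ∧ ¬ P s ((m - q.2) / q.1))).card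

theorem bad_one {P : ℕ → ℕ → Prop} (s N c r K : ℕ) (δ : ℚ) (hδ : 0 ≤ δ) (hδ1 : δ ≤ 1)
    (hK : 0 < K) (hKc : K ≤ c) (hrc : r < c) (hrN : r < N)
    (hY : ∀ Y, 1 ≤ Y → Y * K ≤ N + K → (badc P s Y : ℚ) ≤ δ * Y) (B : Finset ℕ)
    (hB : ∀ m ∈ B, N ≤ m ∧ m < 2 * N ∧ m ≡ r [MOD c] ∧ ¬ P s ((m - r) / c)) :
    (B.card : ℚ) ≤ δ * N / c + 2 := by
  classical
  have hc : 0 < c := by omega
  -- `Y = y + 1`, `c y < N - r ≤ c (y + 1)`
  obtain ⟨y, hy⟩ : ∃ y, y = (N - r - 1) / c := ⟨_, rfl⟩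
  have hy1 : c * y ≤ N - r - 1 := by rw [hy]; exact Nat.mul_div_le _ _
  have hy2 : N - r - 1 < c * (y + 1) := by
    rw [hy]; exact Nat.lt_mul_div_succ _ hc
  have hd : ∀ m ∈ B, c * ((m - r) / c) = m - r := by
    intro m hm
    obtain ⟨h1, _, h3, _⟩ := hB m hm
    exact Nat.mul_div_cancel' ((Nat.modEq_iff_dvd' (by omega)).1 h3.symm)
  have hKY : (y + 1) * K ≤ N + K := by
    have : y * K ≤ c * y := by rw [Nat.mul_comm c y]; exact Nat.mul_le_mul_left _ hKc
    have e : (y + 1) * K = y * K + K := by ring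
    omega
  have hbad := hY (y + 1) (by omega) hKY
  have hle : B.card ≤ badc P s (y + 1) + 1 := by
    have hsub : B.image (fun m => (m - r) / c) ⊆
        ((Finset.Ico (y + 1) (2 * (y + 1))).filter (fun n => ¬ P s n)) ∪ {2 * (y + 1)} := by
      intro d hdm
      rw [Finset.mem_image] at hdm
      obtain ⟨m, hm, rfl⟩ := hdm
      have e := hd m hm
      obtain ⟨h1, h2, _, h4⟩ := hB m hm
      set d := (m - r) / c with hdd
      have l1 : y + 1 ≤ d := by
        by_contra hlt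
        have : c * d ≤ c * y := Nat.mul_le_mul_left _ (by omega)
        omega
      have l2 : d ≤ 2 * (y + 1) := by
        by_contra hlt
        have h5 : c * (2 * (y + 1) + 1) ≤ c * d := Nat.mul_le_mul_left _ (by omega)
        have e5 : c * (2 * (y + 1) + 1) = 2 * (c * (y + 1)) + c := by ring
        omega
      rw [Finset.mem_union, Finset.mem_filter, Finset.mem_Ico, Finset.mem_singleton]
      rcases Nat.lt_or_ge d (2 * (y + 1)) with h6 | h6
      · exact Or.inl ⟨⟨l1, h6⟩, h4⟩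
      · exact Or.inr (by omega)
    have hinj : Set.InjOn (fun m => (m - r) / c) (B : Set ℕ) := by
      intro m hm m' hm' h
      have e := hd m hm
      have e' := hd m' hm'
      have h1 := (hB m hm).1
      have h1' := (hB m' hm').1
      simp only at h
      rw [h, e'] at e
      omega
    have h7 := Finset.card_le_card hsub
    rw [Finset.card_image_of_injOn hinj] at h7
    have h8 := Finset.card_union_le
      ((Finset.Ico (y + 1) (2 * (y + 1))).filter (fun n => ¬ P s n)) {2 * (y + 1)}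
    rw [Finset.card_singleton] at h8
    have h9 : ((Finset.Ico (y + 1) (2 * (y + 1))).filter (fun n => ¬ P s n)).card =
        badc P s (y + 1) := by
      unfold badc
      congr
    omega
  have hcq : (0 : ℚ) < c := by exact_mod_cast hc
  have h10 : (y : ℚ) ≤ N / c := by
    rw [le_div_iff₀ hcq]
    have : y * c ≤ N := by rw [Nat.mul_comm]; omega
    exact_mod_cast this
  have h11 : (B.card : ℚ) ≤ badc P s (y + 1) + 1 := by exact_mod_cast hle
  push_cast at hbad
  have h12 : δ * (y : ℚ) ≤ δ * (N / c) := mul_le_mul_of_nonneg_left h10 hδ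
  calc (B.card : ℚ) ≤ badc P s (y + 1) + 1 := h11
    _ ≤ δ * (y + 1) + 1 := by linarith
    _ = δ * y + δ + 1 := by ring
    _ ≤ δ * (N / c) + 1 + 1 := by linarith
    _ = δ * N / c + 2 := by ring

theorem bad_reps {P : ℕ → ℕ → Prop} (s N K : ℕ) (δ : ℚ) (hδ : 0 ≤ δ) (hδ1 : δ ≤ 1) (hK : 0 < K)
    (hKN : K ≤ N) (C R : Finset ℕ) (hC : ∀ c ∈ C, K ≤ c ∧ c < 2 * K) (hR : ∀ r ∈ R, r < K)
    (hY : ∀ Y, 1 ≤ Y → Y * K ≤ N + K → (badc P s Y : ℚ) ≤ δ * Y) :
    ∑ m ∈ Finset.Ico N (2 * N), (repBad P s C R m : ℚ) ≤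
      δ * N * (R.card * ∑ c ∈ C, (1 : ℚ) / c) + 2 * K * R.card := by
  classical
  have h1 : ∀ m, (repBad P s C R m : ℚ) = ∑ q ∈ C ×ˢ R,
      (if m ≡ q.2 [MOD q.1] ∧ ¬ P s ((m - q.2) / q.1) then (1 : ℚ) else 0) := by
    intro m
    have : repBad P s C R m =
        ((C ×ˢ R).filter (fun q => m ≡ q.2 [MOD q.1] ∧ ¬ P s ((m - q.2) / q.1))).card := by
      unfold repBad
      congr
    rw [this, Finset.card_filter]
    push_cast
    rfl
  simp only [h1]
  rw [Finset.sum_comm]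
  have h2 : ∀ q ∈ C ×ˢ R, ∑ m ∈ Finset.Ico N (2 * N),
      (if m ≡ q.2 [MOD q.1] ∧ ¬ P s ((m - q.2) / q.1) then (1 : ℚ) else 0) ≤
        δ * N * (1 / (q.1 : ℚ)) + 2 := by
    intro q hq
    rw [Finset.mem_product] at hq
    have hc := hC q.1 hq.1
    have hr := hR q.2 hq.2
    have h3 := bad_one s N q.1 q.2 K δ hδ hδ1 hK hc.1 (by omega) (by omega) hY
      ((Finset.Ico N (2 * N)).filter
        (fun m => m ≡ q.2 [MOD q.1] ∧ ¬ P s ((m - q.2) / q.1))) (by
        intro m hm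
        rw [Finset.mem_filter, Finset.mem_Ico] at hm
        exact ⟨hm.1.1, hm.1.2, hm.2.1, hm.2.2⟩)
    rw [Finset.card_filter] at h3
    push_cast at h3
    calc _ ≤ δ * N / q.1 + 2 := h3
      _ = _ := by ring
  refine (Finset.sum_le_sum h2).trans ?_
  rw [Finset.sum_add_distrib, ← Finset.mul_sum, Finset.sum_const, Finset.card_product,
    Finset.sum_product]
  have h3 : ∑ x ∈ C, ∑ y ∈ R, (1 : ℚ) / ((x, y) : ℕ × ℕ).1 = R.card * ∑ c ∈ C, (1 : ℚ) / c := by
    simp only [Finset.sum_const, nsmul_eq_mul]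
    rw [Finset.mul_sum]
  rw [h3, nsmul_eq_mul]
  have h4 : C.card ≤ K := by
    have : C ⊆ Finset.Ico K (2 * K) := fun c hc => Finset.mem_Ico.2 (hC c hc)
    have := Finset.card_le_card this
    rw [Nat.card_Ico] at this
    omega
  have h5 : (C.card : ℚ) ≤ K := by exact_mod_cast h4
  have h6 : (0 : ℚ) ≤ R.card := by positivity
  push_cast
  have h7 : (C.card : ℚ) * R.card ≤ K * R.card := mul_le_mul_of_nonneg_right h5 h6
  linarith

end Pool.Agent.HadM
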