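import Pool.Agent.HadM.Var
import Pool.Agent.HadM.Reps

set_option autoImplicit false

namespace Pool.Agent.HadM

open Pool.Agent.HadL

open Finset in
theorem cover {P : ℕ → ℕ → Prop} (hP : Rules P) (s k h ρ z M N : ℕ) (δ η κ : ℚ)
    (hMz : ∀ p, p.Prime → p ≤ z → p ∣ M) (hz : 0 < z) (hρz : 2 * ρ ≤ z) (hρk : ρ ≤ k)
    (hh : 0 < Nat.choose ρ h) (hN : 8 ^ k ≤ N) (hk : 1 ≤ k)
    (hκ : 0 < κ) (hκ1 : κ ≤ 1) (hδ : 0 ≤ δ) (hδκ : 2 * δ ≤ κ) (hη : 0 < η) (hη1 : 2 * η ≤ 1)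
    (hrough : κ * 2 ^ k ≤
      (((Finset.Ico (2 ^ k) (2 * 2 ^ k)).filter (fun c => Nat.Coprime M c)).card : ℚ))
    (hK : (badc P s (2 ^ k) : ℚ) ≤ δ * 2 ^ k)
    (hY : ∀ Y, 1 ≤ Y → Y * 2 ^ k ≤ N + 2 ^ k → (badc P s Y : ℚ) ≤ δ * Y) (U : Finset ℕ)
    (hU : ∀ m ∈ U, N ≤ m ∧ m < 2 * N ∧ ¬ P (s + 2 * h) (2 * m)) :
    (U.card : ℚ) ≤ N * (16 / (η ^ 2 * κ ^ 2) *
      (4 * (k + 2) / Nat.choose ρ h + 18 * ρ / z + 4 / 2 ^ k) + δ / (1 - η)) := by
  classical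
  obtain ⟨C, hCdef⟩ : ∃ C : Finset ℕ, C = (Finset.Ico (2 ^ k) (2 * 2 ^ k)).filter
    (fun c => Nat.Coprime M c ∧ P s c) := ⟨_, rfl⟩
  obtain ⟨R, hRdef⟩ : ∃ R : Finset ℕ, R = bitSet ρ h := ⟨_, rfl⟩
  have hCm : ∀ c ∈ C, 2 ^ k ≤ c ∧ c < 2 * 2 ^ k ∧ Nat.Coprime M c ∧ P s c := by
    intro c hc
    rw [hCdef, Finset.mem_filter, Finset.mem_Ico] at hc
    exact ⟨hc.1.1, hc.1.2, hc.2.1, hc.2.2⟩
  have hRlt : ∀ r ∈ R, r < 2 ^ ρ := fun r hr => bitSet_lt ρ h r (hRdef ▸ hr)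
  have hRK : ∀ r ∈ R, r < 2 ^ k := fun r hr =>
    lt_of_lt_of_le (hRlt r hr) (Nat.pow_le_pow_right (by norm_num) hρk)
  have hRcard : (R.card : ℚ) = Nat.choose ρ h := by rw [hRdef, bitSet_card]
  rw [← hRcard]
  have hvar := variance k z M ρ N hMz hz hρz C R
    (fun c hc => ⟨(hCm c hc).1, by rw [pow_succ]; have := (hCm c hc).2.1; omega,
      (hCm c hc).2.2.1⟩) hRlt
  have hKN : 2 ^ k ≤ N := le_trans (Nat.pow_le_pow_left (by norm_num) k) hN
  have hrb := bad_reps (P := P) s N (2 ^ k) δ hδ (by linarith) (by positivity) hKN C R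
    (fun c hc => ⟨(hCm c hc).1, (hCm c hc).2.1⟩) hRK hY
  obtain ⟨S, hS⟩ : ∃ S : ℚ, S = ∑ c ∈ C, (1 : ℚ) / c := ⟨_, rfl⟩
  obtain ⟨n, hn⟩ : ∃ n : ℚ, n = (R.card : ℚ) := ⟨_, rfl⟩
  obtain ⟨K, hKd⟩ : ∃ K : ℚ, K = 2 ^ k := ⟨_, rfl⟩
  obtain ⟨e, he⟩ : ∃ e : ℚ, e = 18 * ρ / z := ⟨_, rfl⟩
  have hKcast : (((2 ^ k : ℕ)) : ℚ) = K := by rw [hKd]; push_cast; ring
  rw [hKcast] at hrb
  rw [← hS, ← hn, ← hKd, ← he] at hvar
  rw [← hS, ← hn] at hrb
  rw [← hn, ← hKd, ← he]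
  have hn0 : 0 < n := by
    rw [hn, hRcard]; exact_mod_cast hh
  have hK1 : (1 : ℚ) ≤ K := by rw [hKd]; exact one_le_pow₀ (by norm_num)
  have hNK : K ^ 3 ≤ N := by
    have : ((8 ^ k : ℕ) : ℚ) ≤ N := by exact_mod_cast hN
    refine le_trans (le_of_eq ?_) this
    rw [hKd]
    push_cast
    rw [← pow_mul, mul_comm k 3, pow_mul]
    norm_num
  have hN0 : (0 : ℚ) < N := lt_of_lt_of_le (by positivity) hNK
  -- size of `C`
  have hCcard : κ * K / 2 ≤ C.card := by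
    have h1 : ((Finset.Ico (2 ^ k) (2 * 2 ^ k)).filter (fun c => Nat.Coprime M c)) ⊆
        C ∪ ((Finset.Ico (2 ^ k) (2 * 2 ^ k)).filter (fun n => ¬ P s n)) := by
      intro c hc
      rw [Finset.mem_filter] at hc
      rw [Finset.mem_union, hCdef, Finset.mem_filter, Finset.mem_filter]
      by_cases hPc : P s c
      · exact Or.inl ⟨hc.1, hc.2, hPc⟩
      · exact Or.inr ⟨hc.1, hPc⟩
    have h2 := (Finset.card_le_card h1).trans (Finset.card_union_le _ _)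
    have h3 : ((Finset.Ico (2 ^ k) (2 * 2 ^ k)).filter (fun n => ¬ P s n)).card =
        badc P s (2 ^ k) := by
      unfold badc
      congr
    rw [h3] at h2
    have h4 : (((Finset.Ico (2 ^ k) (2 * 2 ^ k)).filter (fun c => Nat.Coprime M c)).card : ℚ) ≤
        C.card + badc P s (2 ^ k) := by exact_mod_cast h2
    rw [← hKd] at hrough hK
    have h5 : δ * K ≤ κ / 2 * K := mul_le_mul_of_nonneg_right (by linarith) (by linarith)
    linarith
  have hSlow : κ / 4 ≤ S := by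
    have h1 : ∑ c ∈ C, (1 : ℚ) / (2 * K) ≤ S := by
      rw [hS]
      refine Finset.sum_le_sum fun c hc => ?_
      obtain ⟨h1, h2, _⟩ := hCm c hc
      have h3 : (c : ℚ) ≤ 2 * K := by
        rw [hKd]; exact_mod_cast h2.le
      have h4 : (0 : ℚ) < c := by
        exact_mod_cast lt_of_lt_of_le (by positivity) h1
      exact one_div_le_one_div_of_le h4 h3
    rw [Finset.sum_const, nsmul_eq_mul] at h1
    refine le_trans ?_ h1
    rw [mul_one_div, le_div_iff₀ (by linarith)]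
    linarith
  have hS0 : 0 < S := lt_of_lt_of_le (by linarith) hSlow
  have hμ0 : 0 < n * S := mul_pos hn0 hS0
  -- for the elements of `U` all representations are bad
  have hrepeq : ∀ m ∈ U, rep C R m = repBad P s C R m := by
    intro m hm
    obtain ⟨hm1, hm2, hm3⟩ := hU m hm
    unfold rep repBad
    congr 1
    ext q
    simp only [Finset.mem_filter, Finset.mem_product]
    constructor
    · rintro ⟨⟨hc, hr⟩, hmod⟩
      refine ⟨⟨hc, hr⟩, hmod, fun hPd => hm3 ?_⟩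
      obtain ⟨c1, c2, _, hPc⟩ := hCm _ hc
      have hrk := hRK _ hr
      have h8 : 4 * 2 ^ k ≤ 8 ^ k := by
        have h1 : (8 : ℕ) ^ k = 4 ^ k * 2 ^ k := by rw [← mul_pow]; norm_num
        rw [h1]
        have h2 : 4 ^ 1 ≤ 4 ^ k := Nat.pow_le_pow_right (by norm_num) hk
        nlinarith [Nat.two_pow_pos k]
      have hrm : q.2 ≤ m := by omega
      have hdvd : q.1 ∣ m - q.2 := (Nat.modEq_iff_dvd' hrm).1 hmod.symm
      have hmul : q.1 * ((m - q.2) / q.1) = m - q.2 := Nat.mul_div_cancel' hdvd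
      have hcpos : 0 < q.1 := lt_of_lt_of_le (by positivity) c1
      have hdpos : 0 < (m - q.2) / q.1 := Nat.div_pos (by omega) hcpos
      have hP1 := hP.mul hcpos hdpos hPc hPd
      have hP2 := bits hP (a := 2 * q.1 * ((m - q.2) / q.1)) (r := q.2) (ρ := ρ) (h := h)
        (by positivity) (hRdef ▸ hr) hP1
      have : 2 * q.1 * ((m - q.2) / q.1) + 2 * q.2 = 2 * m := by
        rw [mul_assoc, hmul]; omega
      rwa [this] at hP2
    · rintro ⟨⟨hc, hr⟩, hmod, _⟩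
      exact ⟨⟨hc, hr⟩, hmod⟩
  -- split `U`
  let I : Finset ℕ := Finset.Ico N (2 * N)
  have hUI : U ⊆ I := fun m hm => Finset.mem_Ico.2 ⟨(hU m hm).1, (hU m hm).2.1⟩
  obtain ⟨Lw, hLw⟩ : ∃ Lw : Finset ℕ, Lw = U.filter (fun m => (rep C R m : ℚ) < (1 - η) * (n * S)) :=
    ⟨_, rfl⟩
  obtain ⟨Hi, hHi⟩ : ∃ Hi : Finset ℕ,
    Hi = U.filter (fun m => ¬ (rep C R m : ℚ) < (1 - η) * (n * S)) := ⟨_, rfl⟩
  have hcard : (U.card : ℚ) = Lw.card + Hi.card := by
    rw [hLw, hHi]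
    exact_mod_cast (Finset.card_filter_add_card_filter_not (s := U)
      (fun m => (rep C R m : ℚ) < (1 - η) * (n * S))).symm
  have h1η : (1 : ℚ) / 2 ≤ 1 - η := by linarith
  have hL1 : (Lw.card : ℚ) * (η * (n * S)) ^ 2 ≤
      N * (4 * (k + 2) * n + e * n ^ 2) + 3 * K ^ 2 * n ^ 2 := by
    refine le_trans ?_ hvar
    rw [← nsmul_eq_mul, ← Finset.sum_const]
    refine le_trans (Finset.sum_le_sum (s := Lw)
      (g := fun m => ((rep C R m : ℚ) - n * S) ^ 2) ?_)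
      (Finset.sum_le_sum_of_subset_of_nonneg ?_ (fun _ _ _ => sq_nonneg _))
    · intro m hm
      rw [hLw, Finset.mem_filter] at hm
      have h1 : η * (n * S) ≤ n * S - rep C R m := by linarith [hm.2]
      have h2 : 0 ≤ η * (n * S) := by positivity
      have h3 := pow_le_pow_left₀ h2 h1 2
      calc (η * (n * S)) ^ 2 ≤ (n * S - rep C R m) ^ 2 := h3
        _ = ((rep C R m : ℚ) - n * S) ^ 2 := by ring
    · rw [hLw]; exact (Finset.filter_subset _ _).trans hUI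
  have hH1 : (Hi.card : ℚ) * ((1 - η) * (n * S)) ≤ δ * N * (n * S) + 2 * K * n := by
    refine le_trans ?_ hrb
    rw [← nsmul_eq_mul, ← Finset.sum_const]
    refine le_trans (Finset.sum_le_sum (s := Hi)
      (g := fun m => (repBad P s C R m : ℚ)) ?_)
      (Finset.sum_le_sum_of_subset_of_nonneg ?_ (fun _ _ _ => Nat.cast_nonneg _))
    · intro m hm
      rw [hHi, Finset.mem_filter] at hm
      rw [← hrepeq m hm.1]
      exact not_lt.1 hm.2
    · rw [hHi]; exact (Finset.filter_subset _ _).trans hUI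
  -- conclusions
  obtain ⟨A, hA⟩ : ∃ A : ℚ, A = 16 / (η ^ 2 * κ ^ 2) := ⟨_, rfl⟩
  rw [← hA]
  have hA0 : 0 < A := by rw [hA]; positivity
  have hAe : A * (η ^ 2 * κ ^ 2) = 16 := by
    rw [hA]; field_simp
  have hL2 : (Lw.card : ℚ) ≤ A * (N * (4 * (k + 2) / n + e) + 3 * K ^ 2) := by
    have h1 : (Lw.card : ℚ) * (η ^ 2 * n ^ 2 * κ ^ 2 / 16) ≤
        N * (4 * (k + 2) * n + e * n ^ 2) + 3 * K ^ 2 * n ^ 2 := by
      refine le_trans ?_ hL1
      refine mul_le_mul_of_nonneg_left ?_ (Nat.cast_nonneg _)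
      have h2 : (κ / 4) ^ 2 ≤ S ^ 2 := pow_le_pow_left₀ (by positivity) hSlow 2
      have h3 : 0 ≤ η ^ 2 * n ^ 2 := by positivity
      have h4 := mul_le_mul_of_nonneg_left h2 h3
      calc η ^ 2 * n ^ 2 * κ ^ 2 / 16 = η ^ 2 * n ^ 2 * (κ / 4) ^ 2 := by ring
        _ ≤ η ^ 2 * n ^ 2 * S ^ 2 := h4
        _ = (η * (n * S)) ^ 2 := by ring
    have h5 : (Lw.card : ℚ) = A * (Lw.card * (η ^ 2 * n ^ 2 * κ ^ 2 / 16)) / n ^ 2 := by
      field_simp
      linear_combination (-(Lw.card : ℚ)) * hAe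
    rw [h5, div_le_iff₀ (by positivity)]
    calc A * (Lw.card * (η ^ 2 * n ^ 2 * κ ^ 2 / 16))
        ≤ A * (N * (4 * (k + 2) * n + e * n ^ 2) + 3 * K ^ 2 * n ^ 2) :=
          mul_le_mul_of_nonneg_left h1 hA0.le
      _ = A * (N * (4 * (k + 2) / n + e) + 3 * K ^ 2) * n ^ 2 := by
          field_simp
  have hH2 : (Hi.card : ℚ) ≤ δ * N / (1 - η) + A * K ^ 2 := by
    have h0 : 0 < 1 - η := by linarith
    have h1 : (Hi.card : ℚ) ≤ (δ * N * (n * S) + 2 * K * n) / ((1 - η) * (n * S)) := by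
      rw [le_div_iff₀ (by positivity)]
      exact hH1
    have h2 : (δ * N * (n * S) + 2 * K * n) / ((1 - η) * (n * S)) =
        δ * N / (1 - η) + 2 * K / ((1 - η) * S) := by
      field_simp
    rw [h2] at h1
    refine h1.trans ?_
    have h3 : 2 * K / ((1 - η) * S) ≤ A * K ^ 2 := by
      rw [div_le_iff₀ (by positivity)]
      have h4 : κ / 8 ≤ (1 - η) * S := by
        calc κ / 8 = 1 / 2 * (κ / 4) := by ring
          _ ≤ (1 - η) * S := mul_le_mul h1η hSlow (by positivity) (by linarith)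
      have h5 : 16 ≤ A * κ := by
        have h6 : η ^ 2 * κ ≤ 1 := by
          have : η ^ 2 ≤ 1 := by nlinarith
          nlinarith
        have h7 : A * κ * (η ^ 2 * κ) ≤ A * κ * 1 :=
          mul_le_mul_of_nonneg_left h6 (by positivity)
        have h8 : A * κ * (η ^ 2 * κ) = 16 := by rw [← hAe]; ring
        linarith
      have h6 : 2 * K ≤ 2 * K ^ 2 := by nlinarith
      calc 2 * K ≤ 2 * K ^ 2 := h6
        _ ≤ (A * κ) / 8 * K ^ 2 := by
            refine mul_le_mul_of_nonneg_right (by linarith) (by positivity)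
        _ = A * K ^ 2 * (κ / 8) := by ring
        _ ≤ A * K ^ 2 * ((1 - η) * S) := mul_le_mul_of_nonneg_left h4 (by positivity)
    linarith
  have hK3 : 4 * K ^ 2 ≤ N * (4 / K) := by
    rw [mul_div_assoc', le_div_iff₀ (by linarith)]
    nlinarith
  rw [hcard]
  calc (Lw.card : ℚ) + Hi.card
      ≤ A * (N * (4 * (k + 2) / n + e) + 3 * K ^ 2) + (δ * N / (1 - η) + A * K ^ 2) :=
        add_le_add hL2 hH2
    _ = A * (N * (4 * (k + 2) / n + e)) + A * (4 * K ^ 2) + δ * N / (1 - η) := by ring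
    _ ≤ A * (N * (4 * (k + 2) / n + e)) + A * (N * (4 / K)) + δ * N / (1 - η) := by
        have := mul_le_mul_of_nonneg_left hK3 hA0.le
        linarith
    _ = N * (A * (4 * (k + 2) / n + e + 4 / K) + δ / (1 - η)) := by ring
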