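import Pool.Agent.HadM.Chain

set_option autoImplicit false

namespace Pool.Agent.HadM

open Pool.Agent.HadL

theorem recur5 {P : ℕ → ℕ → Prop} (hP : Rules P) (L lam β₀ w : ℕ) (hw1 : 1 ≤ w)
    (hlam : 1 ≤ lam) (hL : L < 2 ^ lam) (hβ : 11 ≤ β₀)
    (hw : ∀ n, 0 < n → n < 2 ^ (8 * 4 ^ β₀ + 1) → P w n)
    (hbig : 2 ^ 34 * lam ^ 16 ≤ 2 ^ β₀) :
    ∀ n, 0 < n → n < 2 ^ (L + 1) → P (2 * w + 40 * lam + 3) n := by
  have hbad : ∀ i, i ≤ L → 8 * bad P (w + 10 * (2 * lam)) i ≤ 2 ^ i := by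
    intro i hi
    have hb : bad P (w + 10 * (2 * lam)) i = badc P (w + 10 * (2 * lam)) (2 ^ i) := by
      unfold bad badc
      rw [pow_succ, Nat.mul_comm (2 ^ i) 2]
    have h4 : 2048 ≤ 4 ^ β₀ := by
      calc 2048 ≤ 4 ^ 11 := by norm_num
        _ ≤ 4 ^ β₀ := Nat.pow_le_pow_right (by norm_num) hβ
    have hsc : L ≤ scale5 (8 * 4 ^ β₀) (2 * lam) := by
      refine le_trans ?_ (scale5_grow (8 * 4 ^ β₀) (by omega) lam)
      calc L ≤ 2 ^ lam * 1 := by omega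
        _ ≤ 2 ^ lam * (8 * 4 ^ β₀) := by
            apply Nat.mul_le_mul_left
            omega
    have h1 := chain5 hP L lam β₀ (2 * lam) w hL hβ (by omega) hw (by
      calc 2 ^ 30 * (2 * lam) ^ 4 * lam ^ 12 = 2 ^ 34 * lam ^ 16 := by ring
        _ ≤ 2 ^ β₀ := hbig) (2 * lam) le_rfl (2 ^ i) Nat.one_le_two_pow
      (Nat.pow_le_pow_right (by norm_num) (by omega))
      (Nat.pow_le_pow_right (by norm_num) hi)
    rw [← hb] at h1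
    have hlq : (1 : ℚ) ≤ lam := by exact_mod_cast hlam
    have hbq : (2 : ℚ) ^ 34 * (lam : ℚ) ^ 16 ≤ 2 ^ β₀ := by exact_mod_cast hbig
    have h2 : (((2 * lam : ℕ) : ℚ) * ((2 * lam : ℕ) : ℚ) *
        (2 ^ 23 * (((2 * lam : ℕ) : ℚ)) ^ 2 * (lam : ℚ) ^ 8 / 2 ^ β₀)) ≤ 1 / 8 := by
      have e : (((2 * lam : ℕ) : ℚ) * ((2 * lam : ℕ) : ℚ) *
        (2 ^ 23 * (((2 * lam : ℕ) : ℚ)) ^ 2 * (lam : ℚ) ^ 8 / 2 ^ β₀)) =
          (2 ^ 27 * (lam : ℚ) ^ 12) / 2 ^ β₀ := by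
        push_cast
        ring
      rw [e, div_le_div_iff₀ (by positivity) (by norm_num)]
      have h3 : (lam : ℚ) ^ 12 ≤ (lam : ℚ) ^ 16 := pow_le_pow_right₀ hlq (by norm_num)
      have h4 : (0 : ℚ) ≤ (lam : ℚ) ^ 12 := by positivity
      linarith
    have h3 : (bad P (w + 10 * (2 * lam)) i : ℚ) ≤ 1 / 8 * ((2 ^ i : ℕ) : ℚ) :=
      h1.trans (mul_le_mul_of_nonneg_right h2 (by positivity))
    have h5 : (8 : ℚ) * (bad P (w + 10 * (2 * lam)) i : ℚ) ≤ ((2 ^ i : ℕ) : ℚ) := by linarith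
    exact_mod_cast h5
  intro n hn hnL
  have h3 := hP.all (w + 10 * (2 * lam)) L (by omega) hbad n hn hnL
  exact hP.mono (by omega) h3

private theorem M14_log (m : ℕ) : Nat.log 2 (m + 1) ≤ Nat.log 2 m + 1 := by
  rcases Nat.eq_zero_or_pos m with h | h
  · subst h; simp
  · calc Nat.log 2 (m + 1) ≤ Nat.log 2 (m * 2) := Nat.log_mono_right (by omega)
      _ = Nat.log 2 m + 1 := Nat.log_mul_base (by norm_num) (by omega)

private theorem M14_sq (m : ℕ) : (m + 1) ^ 2 ≤ 3 * 2 ^ m := by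
  have h : ∀ m, 3 ≤ m → (m + 1) ^ 2 ≤ 3 * 2 ^ m := by
    intro m hm
    induction m, hm using Nat.le_induction with
    | base => norm_num
    | succ m hm ih =>
      rw [pow_succ 2 m]
      nlinarith
  rcases Nat.lt_or_ge m 3 with h1 | h1
  · interval_cases m <;> norm_num
  · exact h m h1

theorem final5 {P : ℕ → ℕ → Prop} (hP : Rules P) :
    ∃ C : ℕ, ∀ n, 0 < n → P (C * (Nat.log 2 (Nat.log 2 n) + 1)) n := by
  refine ⟨10 ^ 12, fun n hn => ?_⟩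
  obtain ⟨L, hL⟩ : ∃ L, L = Nat.log 2 n := ⟨_, rfl⟩
  obtain ⟨a, ha⟩ : ∃ a, a = Nat.log 2 L := ⟨_, rfl⟩
  obtain ⟨lam, hlam⟩ : ∃ lam, lam = a + 1 := ⟨_, rfl⟩
  obtain ⟨l, hl⟩ : ∃ l, l = Nat.log 2 lam + 1 := ⟨_, rfl⟩
  obtain ⟨β₀, hβ₀⟩ : ∃ β₀, β₀ = 34 + 16 * l := ⟨_, rfl⟩
  have hLlam : L < 2 ^ lam := by
    rw [hlam, ha]; exact Nat.lt_pow_succ_log_self (by norm_num) L
  have hlaml : lam < 2 ^ l := by
    rw [hl]; exact Nat.lt_pow_succ_log_self (by norm_num) lam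
  have hl2 : l ^ 2 ≤ 3 * lam := by
    have h1 : 2 ^ Nat.log 2 lam ≤ lam := Nat.pow_log_le_self 2 (by omega)
    have h2 := M14_sq (Nat.log 2 lam)
    rw [hl]
    omega
  have hbig : 2 ^ 34 * lam ^ 16 ≤ 2 ^ β₀ := by
    calc 2 ^ 34 * lam ^ 16 ≤ 2 ^ 34 * (2 ^ l) ^ 16 := by gcongr
      _ = 2 ^ β₀ := by rw [hβ₀, ← pow_mul, ← pow_add]; congr 1; ring
  -- the start
  obtain ⟨L₁, hL1⟩ : ∃ L₁, L₁ = 8 * 4 ^ β₀ + 1 := ⟨_, rfl⟩
  obtain ⟨b, hb⟩ : ∃ b, b = 100 * (Nat.log 2 L₁ + 1) := ⟨_, rfl⟩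
  have s1 : ∀ n, 0 < n → n < 2 ^ L₁ → P (b * ((2 * b + 1) + 1)) n := by
    have := hP.recur L₁ (2 * b + 1) (by omega) (by rw [← hb]; exact hP.trivial b)
    rw [← hb] at this
    exact this
  have hb1 : Nat.log 2 L₁ ≤ 2 * β₀ + 3 := by
    have h1 : L₁ < 2 ^ (2 * β₀ + 4) := by
      have : 2 ^ (2 * β₀ + 4) = 16 * 4 ^ β₀ := by
        rw [pow_add, pow_mul]
        norm_num
        ring
      rw [this, hL1]
      have : 1 ≤ 4 ^ β₀ := Nat.one_le_pow _ _ (by norm_num)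
      omega
    have h2 := Nat.log_lt_of_lt_pow (by omega) h1
    omega
  have hbl : b ≤ 20000 * l := by omega
  have hw : b * ((2 * b + 1) + 1) ≤ 5 * 10 ^ 9 * lam := by
    have hb0 : 1 ≤ b := by omega
    calc b * ((2 * b + 1) + 1) ≤ b * (4 * b) := Nat.mul_le_mul_left _ (by omega)
      _ ≤ (20000 * l) * (4 * (20000 * l)) := by gcongr
      _ = 1600000000 * l ^ 2 := by ring
      _ ≤ 1600000000 * (3 * lam) := by gcongr
      _ ≤ _ := by omega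
  have s2 := recur5 hP L lam β₀ (b * ((2 * b + 1) + 1)) (Nat.mul_pos (by omega) (by omega))
    (by omega) hLlam (by omega) (by rw [← hL1]; exact s1) hbig n hn (by
      rw [hL]; exact Nat.lt_pow_succ_log_self (by norm_num) n)
  refine hP.mono ?_ s2
  rw [← hL, ← ha, ← hlam]
  omega

end Pool.Agent.HadM
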