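import Pool.Agent.HadM.Final
import Pool.Agent.HadL.Had
import Pool.Agent.HadL.RulesP

set_option autoImplicit false

namespace Pool.Agent.HadM

open Pool.Agent.HadL Pool.Agent.HadAP

theorem main_polylog :
    ∃ C : ℕ, ∀ n : ℕ, 0 < n → ∀ t : ℕ, C * (Nat.log 2 (Nat.log 2 n) + 1) ≤ t →
      IsHad (2 ^ t * n) := by
  obtain ⟨C, hC⟩ := final5 rules_P
  refine ⟨C + 1, fun n hn t ht => ?_⟩
  have h1 : C * (Nat.log 2 (Nat.log 2 n) + 1) + 1 ≤ t := by
    refine le_trans ?_ ht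
    rw [Nat.add_mul, one_mul]
    exact Nat.add_le_add_left (Nat.succ_le_succ (Nat.zero_le _)) _
  obtain ⟨m, rfl⟩ : ∃ m, t = m + 1 := ⟨t - 1, by omega⟩
  have h2 := rules_P.mono (Nat.le_of_succ_le_succ h1) (hC n hn)
  have h3 := HasD.isHad hn h2
  have h4 : 2 ^ (m + 1) * n = 2 ^ m * (2 * n) := by ring
  rw [h4]
  exact h3

end Pool.Agent.HadM
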