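import Pool.Agent.HadM.Step

set_option autoImplicit false

namespace Pool.Agent.HadM

open Pool.Agent.HadL

private theorem M12_prime_dvd (p n : ℕ) (hp : p.Prime) (h : p ≤ n) : p ∣ primorial n := by
  unfold primorial
  apply Finset.dvd_prod_of_mem
  rw [Finset.mem_filter, Finset.mem_range]
  exact ⟨by omega, hp⟩

/-- `n ^ 4 ≤ 48 * choose n 4` for `n ≥ 16`. -/
private theorem M12_choose (n : ℕ) (hn : 16 ≤ n) : n ^ 4 ≤ 48 * Nat.choose n 4 := by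
  obtain ⟨m, rfl⟩ : ∃ m, n = m + 16 := ⟨n - 16, by omega⟩
  have h := Nat.descFactorial_eq_factorial_mul_choose (m + 16) 4
  have e : Nat.factorial 4 = 24 := rfl
  rw [e] at h
  have h2 : (m + 16).descFactorial 4 = (m + 13) * ((m + 14) * ((m + 15) * (m + 16))) := by
    simp only [Nat.descFactorial, Nat.add_sub_cancel]
    have e1 : m + 16 - 3 = m + 13 := by omega
    have e2 : m + 16 - 2 = m + 14 := by omega
    have e3 : m + 16 - 1 = m + 15 := by omega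
    have e4 : m + 16 - 0 = m + 16 := by omega
    rw [e1, e2, e3, e4]
    ring
  rw [h2] at h
  have h3 : 48 * Nat.choose (m + 16) 4 = 2 * (24 * Nat.choose (m + 16) 4) := by ring
  rw [h3, ← h]
  ring_nf
  nlinarith [Nat.zero_le m, Nat.zero_le (m ^ 2), Nat.zero_le (m ^ 3), Nat.zero_le (m ^ 4)]

private theorem M12_bracket (β k : ℕ) (hβ : 11 ≤ β) (hk1 : 2 * 4 ^ β ≤ k) (hk2 : k ≤ 8 * 4 ^ β) :
    (4 * ((k : ℚ) + 2) / Nat.choose (2 ^ β) 4 + 18 * ((2 ^ β : ℕ) : ℚ) / ((4 ^ β : ℕ) : ℚ) +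
      5 / 2 ^ k) ≤ 20 / 2 ^ β := by
  have hb : (2048 : ℕ) ≤ 2 ^ β := by
    calc (2048 : ℕ) = 2 ^ 11 := by norm_num
      _ ≤ 2 ^ β := Nat.pow_le_pow_right (by norm_num) hβ
  obtain ⟨t, ht⟩ : ∃ t : ℕ, t = 2 ^ β := ⟨_, rfl⟩
  have h4 : 4 ^ β = t * t := by
    rw [ht, ← mul_pow]; norm_num
  have h4q : ((4 ^ β : ℕ) : ℚ) = (t : ℚ) * t := by
    rw [h4]; push_cast; rfl
  have htq : (2 : ℚ) ^ β = (t : ℚ) := by rw [ht]; push_cast; rfl
  have hch := M12_choose (2 ^ β) (by omega)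
  rw [← ht] at hb hch ⊢
  rw [h4] at hk1 hk2
  rw [htq, h4q]
  have htb : (2048 : ℚ) ≤ t := by exact_mod_cast hb
  have ht0 : (0 : ℚ) < t := by linarith
  have hchq : (t : ℚ) ^ 4 ≤ 48 * (Nat.choose t 4 : ℚ) := by exact_mod_cast hch
  have hk2q : (k : ℚ) ≤ 8 * (t * t) := by exact_mod_cast hk2
  -- first term
  have hchp : (0 : ℚ) < Nat.choose t 4 := by
    have : (0 : ℚ) < (t : ℚ) ^ 4 := by positivity
    linarith
  have a1 : 4 * ((k : ℚ) + 2) / Nat.choose t 4 ≤ 1 / t := by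
    rw [div_le_div_iff₀ hchp ht0]
    have h1 : 4 * ((k : ℚ) + 2) * t ≤ 4 * (8 * (t * t) + 2) * t := by
      apply mul_le_mul_of_nonneg_right _ ht0.le
      linarith
    have h2 : 4 * (8 * ((t : ℚ) * t) + 2) * t * 48 ≤ t ^ 4 := by
      have h3 : (2048 : ℚ) * t ^ 3 ≤ t ^ 4 := by
        have : (t : ℚ) ^ 4 = t * t ^ 3 := by ring
        rw [this]
        exact mul_le_mul_of_nonneg_right htb (by positivity)
      have h5 : (2048 : ℚ) * t ≤ t ^ 2 := by nlinarith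
      have h6 : (t : ℚ) ≤ t ^ 3 := by nlinarith [sq_nonneg (t : ℚ)]
      nlinarith
    linarith
  have a2 : 18 * (t : ℚ) / (t * t) = 18 / t := by
    field_simp
  have a3 : (5 : ℚ) / 2 ^ k ≤ 1 / t := by
    rw [div_le_div_iff₀ (by positivity) ht0]
    have h1 : 5 * t ≤ 2 ^ k := by
      have h2 : 5 * t ≤ 2 ^ (β + 3) := by
        rw [pow_add, ← ht]; omega
      refine h2.trans (Nat.pow_le_pow_right (by norm_num) ?_)
      have h3 : β < t := by rw [ht]; exact Nat.lt_two_pow_self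
      have h5 : t * 2048 ≤ t * t := Nat.mul_le_mul_left _ hb
      omega
    have h2 : (5 : ℚ) * t ≤ 2 ^ k := by exact_mod_cast h1
    linarith
  rw [a2]
  have e : (20 : ℚ) / t = 1 / t + 18 / t + 1 / t := by ring
  rw [e]
  linarith

theorem step_param {P : ℕ → ℕ → Prop} (hP : Rules P) (s k β lam N₀ : ℕ) (δ η : ℚ)
    (hβ : 11 ≤ β) (hk1 : 2 * 4 ^ β ≤ k) (hk2 : k ≤ 8 * 4 ^ β) (hlam : β ≤ lam)
    (hN : 2 * 8 ^ k ≤ N₀) (hδ : 0 ≤ δ) (hδl : 128 * (lam : ℚ) ^ 4 * δ ≤ 1)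
    (hη : 0 < η) (hη1 : 2 * η ≤ 1)
    (hK : (badc P s (2 ^ k) : ℚ) ≤ δ * 2 ^ k)
    (hY : ∀ Y, 1 ≤ Y → Y * 2 ^ k ≤ N₀ → (badc P s Y : ℚ) ≤ δ * Y) :
    (badc P (s + 10) N₀ : ℚ) ≤
      N₀ * (2 ^ 21 * (lam : ℚ) ^ 8 / (η ^ 2 * 2 ^ β) + δ / (1 - η)) := by
  have hlam1 : (1 : ℚ) ≤ lam := by exact_mod_cast (by omega : 1 ≤ lam)
  have hl4 : (0 : ℚ) < 64 * (lam : ℚ) ^ 4 := by positivity
  obtain ⟨κ, hκd⟩ : ∃ κ : ℚ, κ = 1 / (64 * (lam : ℚ) ^ 4) := ⟨_, rfl⟩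
  have hκ : 0 < κ := by rw [hκd]; positivity
  have hl41 : (1 : ℚ) ≤ (lam : ℚ) ^ 4 := one_le_pow₀ hlam1
  have hκ1 : κ ≤ 1 := by
    rw [hκd, div_le_one hl4]
    linarith
  have hδκ : 2 * δ ≤ κ := by
    rw [hκd, le_div_iff₀ hl4]
    linarith
  have hb : (2048 : ℕ) ≤ 2 ^ β := by
    calc (2048 : ℕ) = 2 ^ 11 := by norm_num
      _ ≤ 2 ^ β := Nat.pow_le_pow_right (by norm_num) hβ
  have h4 : 4 ^ β = 2 ^ β * 2 ^ β := by
    rw [← mul_pow]; norm_num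
  have h24 : 2 ^ β * 2048 ≤ 4 ^ β := by
    rw [h4]; exact Nat.mul_le_mul_left _ hb
  -- the modulus
  have hM0 : 0 < primorial (4 ^ β) := primorial_pos _
  have hMk : primorial (4 ^ β) ≤ 2 ^ k := by
    refine (primorial_le_four_pow (4 ^ β)).trans ?_
    rw [show (4 : ℕ) ^ (4 ^ β) = 2 ^ (2 * 4 ^ β) by
      rw [pow_mul]; norm_num]
    exact Nat.pow_le_pow_right (by norm_num) hk1
  have hcc := coprime_count (primorial (4 ^ β)) (2 ^ k) hM0 hMk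
  have hrd : primorial (4 ^ β) ≤ 2 * (2 * β) ^ 4 * Nat.totient (primorial (4 ^ β)) := by
    have := rough_density (2 * β) (by omega)
    rw [show (2 : ℕ) ^ (2 * β) = 4 ^ β by rw [pow_mul]; norm_num] at this
    exact this
  set M := primorial (4 ^ β) with hM
  set cnt := ((Finset.Ico (2 ^ k) (2 * 2 ^ k)).filter (fun c => Nat.Coprime M c)).card with hcnt
  have hcnt1 : 2 ^ k ≤ 64 * β ^ 4 * cnt := by
    have h1 : M * 2 ^ k ≤ M * (64 * β ^ 4 * cnt) := by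
      calc M * 2 ^ k ≤ (2 * (2 * β) ^ 4 * Nat.totient M) * 2 ^ k := Nat.mul_le_mul_right _ hrd
        _ = 32 * β ^ 4 * (2 ^ k * Nat.totient M) := by ring
        _ ≤ 32 * β ^ 4 * (2 * M * cnt) := Nat.mul_le_mul_left _ hcc
        _ = _ := by ring
    exact Nat.le_of_mul_le_mul_left h1 hM0
  have hcnt2 : 2 ^ k ≤ 64 * lam ^ 4 * cnt := by
    refine hcnt1.trans ?_
    gcongr
  have hrough : κ * 2 ^ k ≤ (cnt : ℚ) := by
    rw [hκd, one_div_mul_eq_div, div_le_iff₀ hl4]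
    have : ((2 ^ k : ℕ) : ℚ) ≤ ((64 * lam ^ 4 * cnt : ℕ) : ℚ) := by exact_mod_cast hcnt2
    push_cast at this
    linarith
  have hch : 0 < Nat.choose (2 ^ β) 4 := Nat.choose_pos (by omega)
  have hst := step hP s k 4 (2 ^ β) (4 ^ β) M N₀ δ η κ
    (fun p hp hple => M12_prime_dvd p _ hp hple) (by positivity) (by omega) (by omega)
    hch hN (by
      have : 0 < 4 ^ β := by positivity
      omega) hκ hκ1 hδ hδκ hη hη1 hrough hK hY
  rw [show s + 2 * 4 + 2 = s + 10 by ring] at hst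
  refine hst.trans ?_
  apply mul_le_mul_of_nonneg_left _ (by positivity)
  apply add_le_add_left
  have hbr := M12_bracket β k hβ hk1 hk2
  have hA : 0 ≤ 16 / (η ^ 2 * κ ^ 2) := by positivity
  calc 16 / (η ^ 2 * κ ^ 2) * (4 * ((k : ℚ) + 2) / Nat.choose (2 ^ β) 4 +
        18 * ((2 ^ β : ℕ) : ℚ) / ((4 ^ β : ℕ) : ℚ) + 5 / 2 ^ k)
      ≤ 16 / (η ^ 2 * κ ^ 2) * (20 / 2 ^ β) := mul_le_mul_of_nonneg_left hbr hA
    _ = 1310720 * (lam : ℚ) ^ 8 / (η ^ 2 * 2 ^ β) := by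
        rw [hκd]
        field_simp
        ring
    _ ≤ 2 ^ 21 * (lam : ℚ) ^ 8 / (η ^ 2 * 2 ^ β) := by
        gcongr
        norm_num

end Pool.Agent.HadM
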