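import Pool.Agent.HadL.Final

set_option autoImplicit false

namespace Pool.Agent.HadM

open Pool.Agent.HadL

/-- the numbers below `2 ^ ρ` with exactly `h` binary digits `1` -/
def bitSet (ρ h : ℕ) : Finset ℕ :=
  ((Finset.range ρ).powersetCard h).image (fun s => ∑ e ∈ s, 2 ^ e)

theorem bitSet_card (ρ h : ℕ) : (bitSet ρ h).card = Nat.choose ρ h := by
  unfold bitSet
  rw [Finset.card_image_of_injective _ (Finset.geomSum_injective le_rfl), Finset.card_powersetCard,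
    Finset.card_range]

theorem bitSet_lt (ρ h r : ℕ) (hr : r ∈ bitSet ρ h) : r < 2 ^ ρ := by
  obtain ⟨s, hs, rfl⟩ := Finset.mem_image.1 hr
  exact Nat.geomSum_lt le_rfl fun k hk => Finset.mem_range.1 ((Finset.mem_powersetCard.1 hs).1 hk)

theorem two_pow {P : ℕ → ℕ → Prop} (hP : Rules P) (e : ℕ) : P 1 (2 ^ e) := by
  induction e with
  | zero => exact hP.base
  | succ e ih =>
    have h1 := hP.mul (b := 1) (by positivity : 0 < 2 ^ e) one_pos ih hP.base
    have h2 : 2 ^ (e + 1) = 2 * 2 ^ e * 1 := by ring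
    rw [h2]
    exact h1

theorem bits {P : ℕ → ℕ → Prop} (hP : Rules P) {m a ρ h r : ℕ} (ha : 0 < a)
    (hr : r ∈ bitSet ρ h) (hPa : P m a) : P (m + 2 * h) (a + 2 * r) := by
  obtain ⟨s, hs, rfl⟩ := Finset.mem_image.1 hr
  have hcard := (Finset.mem_powersetCard.1 hs).2
  have key : ∀ s : Finset ℕ, P (m + 2 * s.card) (a + 2 * ∑ e ∈ s, 2 ^ e) := by
    intro s
    induction s using Finset.induction_on with
    | empty => simpa using hPa
    | insert e s hes ih =>
      have h1 := hP.add (a := a + 2 * ∑ e ∈ s, 2 ^ e) (b := 2 ^ e) (by omega) (by positivity) ih (two_pow hP e)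
      have h2 : m + 2 * (insert e s).card = m + 2 * s.card + 1 + 1 := by
        rw [Finset.card_insert_of_notMem hes]
        ring
      have h3 : a + 2 * ∑ e ∈ insert e s, 2 ^ e = a + 2 * ∑ e ∈ s, 2 ^ e + 2 * 2 ^ e := by
        rw [Finset.sum_insert hes]
        ring
      rw [h2, h3]
      exact h1
  have h1 := key s
  rw [hcard] at h1
  exact h1

/-! ## Rough -/

theorem primorial_ratio (n : ℕ) (hn : 0 < n) : primorial n ≤ n * Nat.totient (primorial n) := by
  induction n, hn using Nat.le_induction with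
  | base => simp
  | succ n hn ih =>
    have hadd := primorial_add n 1
    by_cases hp : (n + 1).Prime
    · have h1 : (Finset.Ico (n + 1) (n + 1 + 1)).filter Nat.Prime = {n + 1} := by
        ext p
        simp only [Finset.mem_filter, Finset.mem_Ico, Finset.mem_singleton]
        constructor
        · rintro ⟨h, -⟩
          omega
        · rintro rfl
          exact ⟨by omega, hp⟩
      rw [h1, Finset.prod_singleton] at hadd
      have hcop : Nat.Coprime (primorial n) (n + 1) := by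
        refine ((Nat.Prime.coprime_iff_not_dvd hp).2 ?_).symm
        intro hdvd
        have := hp.dvd_primorial_iff.1 hdvd
        omega
      rw [hadd, Nat.totient_mul hcop, Nat.totient_prime hp, Nat.add_sub_cancel]
      calc primorial n * (n + 1) ≤ (n * Nat.totient (primorial n)) * (n + 1) := Nat.mul_le_mul_right _ ih
        _ = (n + 1) * (Nat.totient (primorial n) * n) := by ring
    · have h1 : (Finset.Ico (n + 1) (n + 1 + 1)).filter Nat.Prime = ∅ := by
        refine Finset.filter_eq_empty_iff.2 fun p hp' hpp => ?_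
        rw [Finset.mem_Ico] at hp'
        have : p = n + 1 := by omega
        exact hp (this ▸ hpp)
      rw [h1, Finset.prod_empty, mul_one] at hadd
      rw [hadd]
      exact ih.trans (Nat.mul_le_mul_right _ (Nat.le_succ n))

private theorem m2_Ico (b : ℕ) :
    (Finset.Ico (2 ^ b + 1) (2 ^ b + 2 ^ b + 1)).filter Nat.Prime =
      (Finset.Ioc (2 ^ b) (2 ^ (b + 1))).filter Nat.Prime := by
  ext p
  simp only [Finset.mem_filter, Finset.mem_Ico, Finset.mem_Ioc, pow_succ]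
  constructor
  · rintro ⟨h, hp⟩
    exact ⟨by omega, hp⟩
  · rintro ⟨h, hp⟩
    exact ⟨by omega, hp⟩

private theorem m2_add (b : ℕ) : primorial (2 ^ (b + 1)) =
    primorial (2 ^ b) * ∏ p ∈ (Finset.Ioc (2 ^ b) (2 ^ (b + 1))).filter Nat.Prime, p := by
  rw [← m2_Ico, ← primorial_add]
  congr 1
  ring

theorem prime_count (b : ℕ) :
    b * ((Finset.Ioc (2 ^ b) (2 ^ (b + 1))).filter Nat.Prime).card ≤ 2 ^ (b + 2) := by
  set T := (Finset.Ioc (2 ^ b) (2 ^ (b + 1))).filter Nat.Prime with hT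
  have h1 : (2 ^ b) ^ T.card ≤ ∏ p ∈ T, p := by
    refine Finset.pow_card_le_prod T (fun p => p) (2 ^ b) fun p hp => ?_
    rw [hT, Finset.mem_filter, Finset.mem_Ioc] at hp
    exact hp.1.1.le
  have h2 : ∏ p ∈ T, p ≤ primorial (2 ^ (b + 1)) := by
    rw [m2_add, ← hT]
    exact Nat.le_mul_of_pos_left _ (primorial_pos _)
  have h3 : primorial (2 ^ (b + 1)) ≤ 4 ^ (2 ^ (b + 1)) := primorial_le_four_pow _
  have h4 : (4 : ℕ) ^ (2 ^ (b + 1)) = 2 ^ (2 ^ (b + 2)) := by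
    rw [show (4 : ℕ) = 2 ^ 2 by norm_num, ← pow_mul]
    congr 1
    ring
  rw [← pow_mul] at h1
  rw [h4] at h3
  exact (Nat.pow_le_pow_iff_right (by norm_num : 1 < 2)).1 (h1.trans (h2.trans h3))

private theorem m3_tot (S : Finset ℕ) (hS : ∀ p ∈ S, p.Prime) :
    (Nat.totient (∏ p ∈ S, p) : ℚ) = ∏ p ∈ S, ((p : ℚ) - 1) := by
  induction S using Finset.induction_on with
  | empty => simp
  | insert q S hq ih =>
    have hqp : q.Prime := hS q (Finset.mem_insert_self q S)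
    have hS' : ∀ p ∈ S, p.Prime := fun p hp => hS p (Finset.mem_insert_of_mem hp)
    have hcop : Nat.Coprime q (∏ p ∈ S, p) := by
      refine (Nat.Prime.coprime_iff_not_dvd hqp).2 fun hd => ?_
      obtain ⟨p, hp, hqp'⟩ := (hqp.prime.dvd_finsetProd_iff _).1 hd
      have := (Nat.prime_dvd_prime_iff_eq hqp (hS' p hp)).1 hqp'
      rw [this] at hq
      exact hq hp
    rw [Finset.prod_insert hq, Finset.prod_insert hq, Nat.totient_mul hcop, Nat.cast_mul, ih hS',
      Nat.totient_prime hqp, Nat.cast_sub hqp.one_le, Nat.cast_one]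

private theorem m3_weier (S : Finset ℕ) (x : ℕ → ℚ) (h0 : ∀ p ∈ S, 0 ≤ x p) (h1 : ∀ p ∈ S, x p ≤ 1) :
    1 - ∑ p ∈ S, x p ≤ ∏ p ∈ S, (1 - x p) ∧ 0 ≤ ∏ p ∈ S, (1 - x p) ∧ ∏ p ∈ S, (1 - x p) ≤ 1 := by
  induction S using Finset.induction_on with
  | empty => simp
  | insert q S hq ih =>
    obtain ⟨ih1, ih2, ih3⟩ := ih (fun p hp => h0 p (Finset.mem_insert_of_mem hp))
      (fun p hp => h1 p (Finset.mem_insert_of_mem hp))
    have hq0 := h0 q (Finset.mem_insert_self q S)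
    have hq1 := h1 q (Finset.mem_insert_self q S)
    rw [Finset.sum_insert hq, Finset.prod_insert hq]
    refine ⟨?_, mul_nonneg (by linarith) ih2, ?_⟩
    · nlinarith
    · nlinarith

private theorem m3_f (b : ℕ) : 0 < (Nat.totient (primorial (2 ^ b)) : ℚ) / primorial (2 ^ b) := by
  have h1 : 0 < Nat.totient (primorial (2 ^ b)) := Nat.totient_pos.2 (primorial_pos _)
  have h2 := primorial_pos (2 ^ b)
  positivity

theorem ratio_step (b : ℕ) (hb : 5 ≤ b) :
    ((b : ℚ) - 4) * ((Nat.totient (primorial (2 ^ b)) : ℚ) / primorial (2 ^ b)) ≤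
      b * ((Nat.totient (primorial (2 ^ (b + 1))) : ℚ) / primorial (2 ^ (b + 1))) := by
  set T := (Finset.Ioc (2 ^ b) (2 ^ (b + 1))).filter Nat.Prime with hT
  have hTp : ∀ p ∈ T, p.Prime := fun p hp => (Finset.mem_filter.1 hp).2
  have hTl : ∀ p ∈ T, 2 ^ b < p := fun p hp => (Finset.mem_Ioc.1 (Finset.mem_filter.1 hp).1).1
  have hcop : Nat.Coprime (primorial (2 ^ b)) (∏ p ∈ T, p) := by
    refine Nat.Coprime.prod_right fun p hp => ?_
    refine ((Nat.Prime.coprime_iff_not_dvd (hTp p hp)).2 fun hd => ?_).symm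
    have h1 := (hTp p hp).dvd_primorial_iff.1 hd
    have h2 := hTl p hp
    omega
  have hf : (Nat.totient (primorial (2 ^ (b + 1))) : ℚ) / primorial (2 ^ (b + 1)) =
      ((Nat.totient (primorial (2 ^ b)) : ℚ) / primorial (2 ^ b)) * ∏ p ∈ T, (1 - 1 / (p : ℚ)) := by
    have h1 : ∏ p ∈ T, (1 - 1 / (p : ℚ)) = (∏ p ∈ T, ((p : ℚ) - 1)) / ∏ p ∈ T, (p : ℚ) := by
      rw [← Finset.prod_div_distrib]
      refine Finset.prod_congr rfl fun p hp => ?_
      have h2 : (p : ℚ) ≠ 0 := by exact_mod_cast (hTp p hp).ne_zero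
      field_simp
    rw [m2_add, ← hT, Nat.totient_mul hcop, h1, ← m3_tot T hTp]
    push_cast
    rw [div_mul_div_comm]
  have hw := (m3_weier T (fun p => 1 / (p : ℚ)) (fun p _ => by positivity) (fun p hp => by
    have h2 : (1 : ℚ) ≤ p := by exact_mod_cast (hTp p hp).one_le
    rw [div_le_one (by linarith)]
    exact h2)).1
  have hsum : ∑ p ∈ T, 1 / (p : ℚ) ≤ 4 / b := by
    have h1 : ∑ p ∈ T, 1 / (p : ℚ) ≤ ∑ p ∈ T, 1 / (2 : ℚ) ^ b := by
      refine Finset.sum_le_sum fun p hp => ?_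
      refine one_div_le_one_div_of_le (by positivity) ?_
      exact_mod_cast (hTl p hp).le
    have h2 := prime_count b
    rw [← hT] at h2
    have h3 : (b : ℚ) * T.card ≤ 2 ^ (b + 2) := by exact_mod_cast h2
    have hb0 : (0 : ℚ) < b := by exact_mod_cast (by omega : 0 < b)
    have h4 : (0 : ℚ) < 2 ^ b := by positivity
    rw [Finset.sum_const, nsmul_eq_mul] at h1
    refine h1.trans ?_
    rw [mul_one_div, div_le_div_iff₀ h4 hb0]
    rw [pow_add] at h3
    nlinarith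
  have hb0 : (0 : ℚ) < b := by exact_mod_cast (by omega : 0 < b)
  have hfpos := m3_f b
  rw [hf]
  set f := (Nat.totient (primorial (2 ^ b)) : ℚ) / primorial (2 ^ b) with hfdef
  have h5 : (b : ℚ) - 4 ≤ b * ∏ p ∈ T, (1 - 1 / (p : ℚ)) := by
    have h6 : (b : ℚ) * (1 - 4 / b) ≤ b * ∏ p ∈ T, (1 - 1 / (p : ℚ)) :=
      mul_le_mul_of_nonneg_left (by linarith) hb0.le
    have h7 : (b : ℚ) * (1 - 4 / b) = b - 4 := by field_simp
    linarith
  calc ((b : ℚ) - 4) * f ≤ (b * ∏ p ∈ T, (1 - 1 / (p : ℚ))) * f := mul_le_mul_of_nonneg_right h5 hfpos.le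
    _ = b * (f * ∏ p ∈ T, (1 - 1 / (p : ℚ))) := by ring

private theorem m3_low (b : ℕ) (hb : 5 ≤ b) :
    3 / 4 ≤ ((b : ℚ) - 1) * (b - 2) * (b - 3) * (b - 4) *
      ((Nat.totient (primorial (2 ^ b)) : ℚ) / primorial (2 ^ b)) := by
  induction b, hb using Nat.le_induction with
  | base =>
    have h1 := primorial_ratio (2 ^ 5) (by positivity)
    have h2 : (0 : ℚ) < primorial (2 ^ 5) := by exact_mod_cast primorial_pos _
    have h3 : (primorial (2 ^ 5) : ℚ) ≤ 2 ^ 5 * Nat.totient (primorial (2 ^ 5)) := by exact_mod_cast h1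
    have h4 : 1 / 32 ≤ (Nat.totient (primorial (2 ^ 5)) : ℚ) / primorial (2 ^ 5) := by
      rw [div_le_div_iff₀ (by norm_num) h2]
      linarith
    generalize (Nat.totient (primorial (2 ^ 5)) : ℚ) / primorial (2 ^ 5) = f at h4 ⊢
    have h5 : (((5 : ℕ) : ℚ) - 1) * (((5 : ℕ) : ℚ) - 2) * (((5 : ℕ) : ℚ) - 3) * (((5 : ℕ) : ℚ) - 4) = 24 := by
      norm_num
    rw [h5]
    linarith
  | succ b hb ih =>
    have h1 := ratio_step b hb
    have hb5 : (5 : ℚ) ≤ b := by exact_mod_cast hb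
    have h2 := m3_f b
    have h3 : 0 ≤ ((b : ℚ) - 1) * (b - 2) * (b - 3) :=
      mul_nonneg (mul_nonneg (by linarith) (by linarith)) (by linarith)
    have h4 := mul_le_mul_of_nonneg_left h1 h3
    push_cast
    calc (3 : ℚ) / 4 ≤ ((b : ℚ) - 1) * (b - 2) * (b - 3) * (b - 4) *
          ((Nat.totient (primorial (2 ^ b)) : ℚ) / primorial (2 ^ b)) := ih
      _ = ((b : ℚ) - 1) * (b - 2) * (b - 3) *
          (((b : ℚ) - 4) * ((Nat.totient (primorial (2 ^ b)) : ℚ) / primorial (2 ^ b))) := by ring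
      _ ≤ _ := h4
      _ = _ := by ring

theorem rough_density (b : ℕ) (hb : 1 ≤ b) :
    primorial (2 ^ b) ≤ 2 * b ^ 4 * Nat.totient (primorial (2 ^ b)) := by
  by_cases hb5 : 5 ≤ b
  · have h1 := m3_low b hb5
    have hb5' : (5 : ℚ) ≤ b := by exact_mod_cast hb5
    have h2 := m3_f b
    have hpos : (0 : ℚ) < primorial (2 ^ b) := by exact_mod_cast primorial_pos _
    have h3 : ((b : ℚ) - 1) * (b - 2) * (b - 3) * (b - 4) ≤ b ^ 4 := by
      have e1 : ((b : ℚ) - 1) * (b - 2) ≤ b * b :=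
        mul_le_mul (by linarith) (by linarith) (by linarith) (by linarith)
      have e2 : ((b : ℚ) - 1) * (b - 2) * (b - 3) ≤ b * b * b :=
        mul_le_mul e1 (by linarith) (by linarith) (by positivity)
      have e3 : ((b : ℚ) - 1) * (b - 2) * (b - 3) * (b - 4) ≤ b * b * b * b :=
        mul_le_mul e2 (by linarith) (by linarith) (by positivity)
      calc _ ≤ (b : ℚ) * b * b * b := e3
        _ = b ^ 4 := by ring
    have h4 : (3 : ℚ) / 4 ≤ b ^ 4 * ((Nat.totient (primorial (2 ^ b)) : ℚ) / primorial (2 ^ b)) :=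
      h1.trans (mul_le_mul_of_nonneg_right h3 h2.le)
    have h5 : (primorial (2 ^ b) : ℚ) ≤ 2 * b ^ 4 * Nat.totient (primorial (2 ^ b)) := by
      rw [← mul_div_assoc, div_le_div_iff₀ (by norm_num) hpos] at h4
      nlinarith
    exact_mod_cast h5
  · have h1 := primorial_ratio (2 ^ b) (by positivity)
    refine h1.trans (Nat.mul_le_mul_right _ ?_)
    interval_cases b <;> norm_num

private theorem m4_count (M K q : ℕ) :
    q * Nat.totient M ≤ ((Finset.Ico K (K + q * M)).filter (fun c => Nat.Coprime M c)).card := by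
  induction q with
  | zero => simp
  | succ q ih =>
    have h1 : (Finset.Ico K (K + (q + 1) * M)).filter (fun c => Nat.Coprime M c) =
        (Finset.Ico K (K + q * M)).filter (fun c => Nat.Coprime M c) ∪
          (Finset.Ico (K + q * M) (K + q * M + M)).filter (fun c => Nat.Coprime M c) := by
      rw [← Finset.filter_union, Finset.Ico_union_Ico_eq_Ico (by omega) (by omega)]
      congr 2
      ring
    rw [h1, Finset.card_union_of_disjoint (Finset.disjoint_filter_filter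
      (Finset.Ico_disjoint_Ico_consecutive _ _ _)), Nat.filter_coprime_Ico_eq_totient]
    nlinarith

theorem coprime_count (M K : ℕ) (hM : 0 < M) (hMK : M ≤ K) :
    K * Nat.totient M ≤
      2 * M * ((Finset.Ico K (2 * K)).filter (fun c => Nat.Coprime M c)).card := by
  have hq1 : 1 ≤ K / M := (Nat.one_le_div_iff hM).2 hMK
  have hq2 : K / M * M ≤ K := Nat.div_mul_le_self K M
  have hq3 : K < (K / M + 1) * M := by
    have := Nat.lt_div_mul_add hM (a := K)
    linarith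
  have h1 := m4_count M K (K / M)
  have h2 : ((Finset.Ico K (K + K / M * M)).filter (fun c => Nat.Coprime M c)).card ≤
      ((Finset.Ico K (2 * K)).filter (fun c => Nat.Coprime M c)).card := by
    refine Finset.card_le_card (Finset.filter_subset_filter _ (Finset.Ico_subset_Ico_right ?_))
    omega
  have h3 : K ≤ 2 * M * (K / M) := by nlinarith
  calc K * Nat.totient M ≤ 2 * M * (K / M) * Nat.totient M := Nat.mul_le_mul_right _ h3
    _ = 2 * M * (K / M * Nat.totient M) := by ring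
    _ ≤ _ := Nat.mul_le_mul_left _ (h1.trans h2)

/-! ## Divisors -/

theorem rough_divisors (z M D ρ : ℕ) (hMz : ∀ p, p.Prime → p ≤ z → p ∣ M) (hD : 0 < D)
    (hDρ : D < 2 ^ ρ) (hz : 0 < z) (hρz : 2 * ρ ≤ z) :
    ∑ g ∈ (D.divisors.filter (fun g => Nat.Coprime M g)).erase 1, (1 : ℚ) / g ≤ 2 * ρ / z := by
  classical
  set S := D.divisors.filter (fun g => Nat.Coprime M g) with hS
  set Q := D.primeFactors.filter (fun p => z < p) with hQ
  set τ := ∑ g ∈ S.erase 1, (1 : ℚ) / g with hτ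
  have h1S : (1 : ℕ) ∈ S := by
    rw [hS, Finset.mem_filter, Nat.mem_divisors]
    exact ⟨⟨one_dvd _, hD.ne'⟩, Nat.coprime_one_right M⟩
  have hsumS : ∑ g ∈ S, (1 : ℚ) / g = 1 + τ := by
    rw [hτ, ← Finset.add_sum_erase S (fun g => (1 : ℚ) / g) h1S]
    norm_num
  have hsub : S.erase 1 ⊆ (Q ×ˢ S).image (fun q => q.1 * q.2) := by
    intro g hg
    rw [Finset.mem_erase, hS, Finset.mem_filter, Nat.mem_divisors] at hg
    obtain ⟨hg1, ⟨hgD, -⟩, hgM⟩ := hg
    have hp : g.minFac.Prime := Nat.minFac_prime hg1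
    have hpg : g.minFac ∣ g := Nat.minFac_dvd g
    have hzp : z < g.minFac := by
      by_contra hcon
      have h2 := hMz _ hp (not_lt.1 hcon)
      have h3 := Nat.dvd_gcd h2 hpg
      rw [hgM] at h3
      exact hp.one_lt.ne' (Nat.dvd_one.1 h3)
    refine Finset.mem_image.2 ⟨(g.minFac, g / g.minFac), Finset.mem_product.2 ⟨?_, ?_⟩,
      Nat.mul_div_cancel' hpg⟩
    · rw [hQ, Finset.mem_filter, Nat.mem_primeFactors]
      exact ⟨⟨hp, hpg.trans hgD, hD.ne'⟩, hzp⟩
    · rw [hS, Finset.mem_filter, Nat.mem_divisors]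
      have h4 : g / g.minFac ∣ g := Nat.div_dvd_of_dvd hpg
      exact ⟨⟨h4.trans hgD, hD.ne'⟩, Nat.Coprime.coprime_dvd_right h4 hgM⟩
  have hτ1 : τ ≤ (∑ p ∈ Q, (1 : ℚ) / p) * (1 + τ) := by
    rw [hτ]
    refine (Finset.sum_le_sum_of_subset_of_nonneg hsub fun g _ _ => by positivity).trans ?_
    rw [← hsumS, Finset.sum_mul_sum, ← Finset.sum_product']
    refine (Finset.sum_image_le_of_nonneg (fun g _ => by positivity)).trans ?_
    refine Finset.sum_le_sum fun q _ => ?_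
    push_cast
    rw [one_div_mul_one_div]
  have hQc : Q.card ≤ ρ := by
    have h2 : 2 ^ Q.card ≤ ∏ p ∈ Q, p := by
      refine Finset.pow_card_le_prod Q (fun p => p) 2 fun p hp => ?_
      rw [hQ, Finset.mem_filter, Nat.mem_primeFactors] at hp
      exact hp.1.1.two_le
    have h3 : ∏ p ∈ Q, p ∣ D := by
      refine (Finset.prod_dvd_prod_of_subset _ _ _ (Finset.filter_subset _ _)).trans (Nat.prod_primeFactors_dvd D)
    have h4 := Nat.le_of_dvd hD h3
    exact ((Nat.pow_lt_pow_iff_right (by norm_num : 1 < 2)).1 ((h2.trans h4).trans_lt hDρ)).le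
  have hz0 : (0 : ℚ) < z := by exact_mod_cast hz
  have hQs : ∑ p ∈ Q, (1 : ℚ) / p ≤ ρ / z := by
    have h2 : ∑ p ∈ Q, (1 : ℚ) / p ≤ ∑ p ∈ Q, (1 : ℚ) / z := by
      refine Finset.sum_le_sum fun p hp => ?_
      refine one_div_le_one_div_of_le hz0 ?_
      rw [hQ, Finset.mem_filter] at hp
      exact_mod_cast hp.2.le
    rw [Finset.sum_const, nsmul_eq_mul, mul_one_div] at h2
    refine h2.trans ?_
    have h3 : (Q.card : ℚ) ≤ ρ := by exact_mod_cast hQc
    exact div_le_div_of_nonneg_right h3 hz0.le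
  have hτ0 : 0 ≤ τ := Finset.sum_nonneg fun g _ => by positivity
  have h5 : (ρ : ℚ) / z ≤ 1 / 2 := by
    rw [div_le_div_iff₀ hz0 (by norm_num)]
    have : (2 : ℚ) * ρ ≤ z := by exact_mod_cast hρz
    linarith
  have h6 : τ ≤ ρ / z * (1 + τ) := hτ1.trans (mul_le_mul_of_nonneg_right hQs (by linarith))
  have h7 : 2 * (ρ : ℚ) / z = 2 * (ρ / z) := by ring
  rw [h7]
  nlinarith

private theorem m6_mult (k g : ℕ) (hg : 0 < g) (C : Finset ℕ)
    (hC : ∀ c ∈ C, 2 ^ k ≤ c ∧ c < 2 ^ (k + 1)) :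
    ((C.filter (fun c => g ∣ c)).card : ℚ) ≤ 3 * 2 ^ k / g := by
  by_cases hgk : g < 2 ^ (k + 1)
  · have h1 : C.filter (fun c => g ∣ c) ⊆ (Finset.Ico (2 ^ k) (2 * 2 ^ k)).filter (fun n => n ≡ 0 [MOD g]) := by
      intro c hc
      rw [Finset.mem_filter] at hc
      rw [Finset.mem_filter, Finset.mem_Ico]
      have h2 := hC c hc.1
      rw [pow_succ] at h2
      exact ⟨⟨h2.1, by omega⟩, (Nat.modEq_zero_iff_dvd).2 hc.2⟩
    have h2 := (mod_count (2 ^ k) g 0 hg).1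
    have h3 : ((C.filter (fun c => g ∣ c)).card : ℚ) ≤ (2 ^ k : ℕ) / g + 1 := by
      refine le_trans ?_ h2
      exact_mod_cast Finset.card_le_card h1
    have hg0 : (0 : ℚ) < g := by exact_mod_cast hg
    have h4 : (1 : ℚ) ≤ 2 * 2 ^ k / g := by
      rw [le_div_iff₀ hg0]
      rw [pow_succ] at hgk
      have : (g : ℚ) < 2 ^ k * 2 := by exact_mod_cast hgk
      linarith
    have h5 : (3 : ℚ) * 2 ^ k / g = 2 ^ k / g + 2 * 2 ^ k / g := by ring
    rw [h5]
    push_cast at h3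
    linarith
  · have h1 : C.filter (fun c => g ∣ c) = ∅ := by
      refine Finset.filter_eq_empty_iff.2 fun c hc hgc => ?_
      have h2 := hC c hc
      have h3 : 0 < c := lt_of_lt_of_le (by positivity) h2.1
      have h4 := Nat.le_of_dvd h3 hgc
      omega
    rw [h1, Finset.card_empty, Nat.cast_zero]
    positivity

theorem pair_sum (k z M D ρ : ℕ) (hMz : ∀ p, p.Prime → p ≤ z → p ∣ M) (hD : 0 < D)
    (hDρ : D < 2 ^ ρ) (hz : 0 < z) (hρz : 2 * ρ ≤ z) (C : Finset ℕ)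
    (hC : ∀ c ∈ C, 2 ^ k ≤ c ∧ c < 2 ^ (k + 1) ∧ Nat.Coprime M c) :
    ∑ c ∈ C, ∑ c' ∈ C, (if Nat.gcd c c' ∣ D then (Nat.gcd c c' : ℚ) / (c * c') else 0) ≤
      (∑ c ∈ C, (1 : ℚ) / c) ^ 2 + 18 * ρ / z := by
  classical
  set T := (D.divisors.filter (fun g => Nat.Coprime M g)).erase 1 with hT
  have hCpos : ∀ c ∈ C, (0 : ℚ) < c := by
    intro c hc
    have h1 : 0 < c := lt_of_lt_of_le (by positivity) (hC c hc).1
    exact_mod_cast h1
  have hCk : ∀ c ∈ C, (2 : ℚ) ^ k ≤ c := fun c hc => by exact_mod_cast (hC c hc).1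
  have hterm : ∀ c ∈ C, ∀ c' ∈ C, (if Nat.gcd c c' ∣ D then (Nat.gcd c c' : ℚ) / (c * c') else 0) ≤
      1 / c * (1 / c') + ∑ g ∈ T, (g : ℚ) / (2 ^ k * 2 ^ k) *
        ((if g ∣ c then 1 else 0) * (if g ∣ c' then 1 else 0)) := by
    intro c hc c' hc'
    have hc0 := hCpos c hc
    have hc0' := hCpos c' hc'
    have hnn : 0 ≤ ∑ g ∈ T, (g : ℚ) / (2 ^ k * 2 ^ k) *
        ((if g ∣ c then 1 else 0) * (if g ∣ c' then 1 else 0)) := by
      refine Finset.sum_nonneg fun g _ => mul_nonneg (by positivity) (mul_nonneg ?_ ?_) <;>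
        split_ifs <;> norm_num
    by_cases hgD : Nat.gcd c c' ∣ D
    · rw [if_pos hgD]
      by_cases hg1 : Nat.gcd c c' = 1
      · rw [hg1, Nat.cast_one, one_div_mul_one_div]
        linarith
      · have hgT : Nat.gcd c c' ∈ T := by
          rw [hT, Finset.mem_erase, Finset.mem_filter, Nat.mem_divisors]
          exact ⟨hg1, ⟨hgD, hD.ne'⟩, Nat.Coprime.coprime_dvd_right (Nat.gcd_dvd_left c c') (hC c hc).2.2⟩
        have h1 : (Nat.gcd c c' : ℚ) / (2 ^ k * 2 ^ k) *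
            ((if Nat.gcd c c' ∣ c then 1 else 0) * (if Nat.gcd c c' ∣ c' then 1 else 0)) ≤
            ∑ g ∈ T, (g : ℚ) / (2 ^ k * 2 ^ k) * ((if g ∣ c then 1 else 0) * (if g ∣ c' then 1 else 0)) := by
          refine Finset.single_le_sum (f := fun g : ℕ => (g : ℚ) / (2 ^ k * 2 ^ k) *
            ((if g ∣ c then 1 else 0) * (if g ∣ c' then 1 else 0))) (fun g _ => ?_) hgT
          refine mul_nonneg (by positivity) (mul_nonneg ?_ ?_) <;> split_ifs <;> norm_num
        rw [if_pos (Nat.gcd_dvd_left c c'), if_pos (Nat.gcd_dvd_right c c'), mul_one, mul_one] at h1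
        have h2 : (Nat.gcd c c' : ℚ) / (c * c') ≤ (Nat.gcd c c' : ℚ) / (2 ^ k * 2 ^ k) := by
          refine div_le_div_of_nonneg_left (by positivity) (by positivity) ?_
          exact mul_le_mul (hCk c hc) (hCk c' hc') (by positivity) hc0.le
        have h3 : 0 ≤ 1 / (c : ℚ) * (1 / c') := by positivity
        linarith
    · rw [if_neg hgD]
      have h3 : 0 ≤ 1 / (c : ℚ) * (1 / c') := by positivity
      linarith
  have hsum1 : ∑ c ∈ C, ∑ c' ∈ C, (if Nat.gcd c c' ∣ D then (Nat.gcd c c' : ℚ) / (c * c') else 0) ≤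
      ∑ c ∈ C, ∑ c' ∈ C, (1 / c * (1 / c') + ∑ g ∈ T, (g : ℚ) / (2 ^ k * 2 ^ k) *
        ((if g ∣ c then 1 else 0) * (if g ∣ c' then 1 else 0))) :=
    Finset.sum_le_sum fun c hc => Finset.sum_le_sum fun c' hc' => hterm c hc c' hc'
  refine hsum1.trans ?_
  have hsplit : ∑ c ∈ C, ∑ c' ∈ C, (1 / (c : ℚ) * (1 / c') + ∑ g ∈ T, (g : ℚ) / (2 ^ k * 2 ^ k) *
        ((if g ∣ c then 1 else 0) * (if g ∣ c' then 1 else 0))) =
      (∑ c ∈ C, (1 : ℚ) / c) ^ 2 + ∑ g ∈ T, (g : ℚ) / (2 ^ k * 2 ^ k) *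
        ((C.filter (fun c => g ∣ c)).card : ℚ) ^ 2 := by
    simp_rw [Finset.sum_add_distrib]
    congr 1
    · rw [sq, Finset.sum_mul_sum]
    · have e1 : ∀ c ∈ C, ∑ c' ∈ C, ∑ g ∈ T, (g : ℚ) / (2 ^ k * 2 ^ k) *
          ((if g ∣ c then 1 else 0) * (if g ∣ c' then 1 else 0)) =
          ∑ g ∈ T, ∑ c' ∈ C, (g : ℚ) / (2 ^ k * 2 ^ k) *
            ((if g ∣ c then 1 else 0) * (if g ∣ c' then 1 else 0)) := fun c _ => Finset.sum_comm
      rw [Finset.sum_congr rfl e1, Finset.sum_comm]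
      refine Finset.sum_congr rfl fun g _ => ?_
      have e2 : ((C.filter (fun c => g ∣ c)).card : ℚ) = ∑ c ∈ C, (if g ∣ c then (1 : ℚ) else 0) := by
        rw [Finset.sum_boole]
      rw [e2, sq, Finset.sum_mul_sum, Finset.mul_sum]
      refine Finset.sum_congr rfl fun c _ => ?_
      rw [Finset.mul_sum]
  rw [hsplit]
  have hlast : ∑ g ∈ T, (g : ℚ) / (2 ^ k * 2 ^ k) * ((C.filter (fun c => g ∣ c)).card : ℚ) ^ 2 ≤
      (18 * ρ / z : ℚ) := by
    have h1 : ∀ g ∈ T, (g : ℚ) / (2 ^ k * 2 ^ k) * ((C.filter (fun c => g ∣ c)).card : ℚ) ^ 2 ≤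
        9 * (1 / g) := by
      intro g hg
      have hg0 : 0 < g := by
        rw [hT, Finset.mem_erase, Finset.mem_filter] at hg
        exact Nat.pos_of_mem_divisors hg.2.1
      have hgq : (0 : ℚ) < g := by exact_mod_cast hg0
      have h2 := m6_mult k g hg0 C fun c hc => ⟨(hC c hc).1, (hC c hc).2.1⟩
      have h3 : ((C.filter (fun c => g ∣ c)).card : ℚ) ^ 2 ≤ (3 * 2 ^ k / g) ^ 2 :=
        pow_le_pow_left₀ (by positivity) h2 2
      calc (g : ℚ) / (2 ^ k * 2 ^ k) * ((C.filter (fun c => g ∣ c)).card : ℚ) ^ 2 ≤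
          (g : ℚ) / (2 ^ k * 2 ^ k) * (3 * 2 ^ k / g) ^ 2 := mul_le_mul_of_nonneg_left h3 (by positivity)
        _ = 9 * (1 / g) := by
          field_simp
          norm_num
    refine (Finset.sum_le_sum h1).trans ?_
    rw [← Finset.mul_sum]
    have h2 := rough_divisors z M D ρ hMz hD hDρ hz hρz
    rw [← hT] at h2
    calc 9 * ∑ g ∈ T, (1 : ℚ) / g ≤ 9 * (2 * ρ / z) := mul_le_mul_of_nonneg_left h2 (by norm_num)
      _ = 18 * ρ / z := by ring
  linarith

theorem pair_sum_diag (k : ℕ) (C : Finset ℕ) (hC : ∀ c ∈ C, 2 ^ k ≤ c ∧ c < 2 ^ (k + 1)) :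
    ∑ c ∈ C, ∑ c' ∈ C, (Nat.gcd c c' : ℚ) / (c * c') ≤ 4 * (k + 2) := by
  have hsub : C ⊆ Finset.Ico (2 ^ k) (2 ^ (k + 1)) := fun c hc => Finset.mem_Ico.2 (hC c hc)
  have h1 : ∑ c ∈ C, ∑ c' ∈ C, (Nat.gcd c c' : ℚ) / (c * c') ≤
      ∑ c ∈ C, ∑ c' ∈ C, (Nat.gcd c c' : ℚ) / (2 ^ k * 2 ^ k) := by
    refine Finset.sum_le_sum fun c hc => Finset.sum_le_sum fun c' hc' => ?_
    have e1 : (2 : ℚ) ^ k ≤ c := by exact_mod_cast (hC c hc).1
    have e2 : (2 : ℚ) ^ k ≤ c' := by exact_mod_cast (hC c' hc').1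
    refine div_le_div_of_nonneg_left (by positivity) (by positivity) ?_
    exact mul_le_mul e1 e2 (by positivity) (by positivity)
  have h2 : ∑ c ∈ C, ∑ c' ∈ C, (Nat.gcd c c' : ℚ) / (2 ^ k * 2 ^ k) ≤
      ∑ c ∈ Finset.Ico (2 ^ k) (2 ^ (k + 1)), ∑ c' ∈ Finset.Ico (2 ^ k) (2 ^ (k + 1)),
        (Nat.gcd c c' : ℚ) / (2 ^ k * 2 ^ k) := by
    refine (Finset.sum_le_sum fun c _ => Finset.sum_le_sum_of_subset_of_nonneg hsub
      fun c' _ _ => by positivity).trans ?_
    exact Finset.sum_le_sum_of_subset_of_nonneg hsub fun c _ _ =>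
      Finset.sum_nonneg fun c' _ => by positivity
  refine (h1.trans h2).trans ?_
  simp_rw [← Finset.sum_div]
  rw [div_le_iff₀ (by positivity)]
  have h3 := gcd_sum k
  have h4 : ((∑ c ∈ Finset.Ico (2 ^ k) (2 ^ (k + 1)), ∑ c' ∈ Finset.Ico (2 ^ k) (2 ^ (k + 1)),
      Nat.gcd c c' : ℕ) : ℚ) ≤ ((4 * 4 ^ k * (k + 2) : ℕ) : ℚ) := by exact_mod_cast h3
  push_cast at h4
  refine h4.trans (le_of_eq ?_)
  have h5 : (4 : ℚ) ^ k = 2 ^ k * 2 ^ k := by
    rw [← mul_pow]
    norm_num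
  rw [h5]
  ring

/-! ## Counting -/

theorem count_pair (N c c' r r' : ℕ) (hc : 0 < c) (hc' : 0 < c') :
    (((Finset.Ico N (2 * N)).filter (fun m => m ≡ r [MOD c] ∧ m ≡ r' [MOD c'])).card : ℚ) ≤
      if r ≡ r' [MOD Nat.gcd c c'] then (N : ℚ) * Nat.gcd c c' / (c * c') + 1 else 0 := by
  classical
  rcases ((Finset.Ico N (2 * N)).filter (fun m => m ≡ r [MOD c] ∧ m ≡ r' [MOD c'])).eq_empty_or_nonempty
    with h0 | ⟨m₀, hm₀⟩
  · rw [h0, Finset.card_empty, Nat.cast_zero]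
    split_ifs
    · positivity
    · exact le_rfl
  · rw [Finset.mem_filter] at hm₀
    obtain ⟨-, h1, h2⟩ := hm₀
    have h3 : r ≡ r' [MOD Nat.gcd c c'] :=
      (h1.symm.of_dvd (Nat.gcd_dvd_left c c')).trans (h2.of_dvd (Nat.gcd_dvd_right c c'))
    rw [if_pos h3]
    have hl : 0 < Nat.lcm c c' := Nat.lcm_pos hc hc'
    have hsub : (Finset.Ico N (2 * N)).filter (fun m => m ≡ r [MOD c] ∧ m ≡ r' [MOD c']) ⊆
        (Finset.Ico N (2 * N)).filter (fun m => m ≡ m₀ [MOD Nat.lcm c c']) := by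
      intro m hm
      rw [Finset.mem_filter] at hm ⊢
      refine ⟨hm.1, ?_⟩
      have e1 : m ≡ m₀ [MOD c] := hm.2.1.trans h1.symm
      have e2 : m ≡ m₀ [MOD c'] := hm.2.2.trans h2.symm
      rw [Nat.modEq_iff_dvd] at e1 e2 ⊢
      exact Int.coe_lcm_dvd e1 e2
    have h4 := (mod_count N (Nat.lcm c c') m₀ hl).1
    have h5 : (((Finset.Ico N (2 * N)).filter (fun m => m ≡ r [MOD c] ∧ m ≡ r' [MOD c'])).card : ℚ) ≤
        N / (Nat.lcm c c' : ℕ) + 1 := by
      refine le_trans ?_ h4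
      exact_mod_cast Finset.card_le_card hsub
    refine h5.trans (le_of_eq ?_)
    have h6 : (Nat.gcd c c' : ℚ) * Nat.lcm c c' = c * c' := by exact_mod_cast Nat.gcd_mul_lcm c c'
    have hg0 : (Nat.gcd c c' : ℚ) ≠ 0 := by
      exact_mod_cast (Nat.gcd_pos_of_pos_left c' hc).ne'
    have hl0 : (Nat.lcm c c' : ℚ) ≠ 0 := by exact_mod_cast hl.ne'
    rw [← h6]
    field_simp

end Pool.Agent.HadM
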