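import Pool.Agent.HadM.Cover

set_option autoImplicit false

namespace Pool.Agent.HadM

open Pool.Agent.HadL

theorem step {P : ℕ → ℕ → Prop} (hP : Rules P) (s k h ρ z M N₀ : ℕ) (δ η κ : ℚ)
    (hMz : ∀ p, p.Prime → p ≤ z → p ∣ M) (hz : 0 < z) (hρz : 2 * ρ ≤ z) (hρk : ρ ≤ k)
    (hh : 0 < Nat.choose ρ h) (hN : 2 * 8 ^ k ≤ N₀) (hk : 1 ≤ k)
    (hκ : 0 < κ) (hκ1 : κ ≤ 1) (hδ : 0 ≤ δ) (hδκ : 2 * δ ≤ κ) (hη : 0 < η) (hη1 : 2 * η ≤ 1)
    (hrough : κ * 2 ^ k ≤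
      (((Finset.Ico (2 ^ k) (2 * 2 ^ k)).filter (fun c => Nat.Coprime M c)).card : ℚ))
    (hK : (badc P s (2 ^ k) : ℚ) ≤ δ * 2 ^ k)
    (hY : ∀ Y, 1 ≤ Y → Y * 2 ^ k ≤ N₀ → (badc P s Y : ℚ) ≤ δ * Y) :
    (badc P (s + 2 * h + 2) N₀ : ℚ) ≤ N₀ * (16 / (η ^ 2 * κ ^ 2) *
      (4 * (k + 2) / Nat.choose ρ h + 18 * ρ / z + 5 / 2 ^ k) + δ / (1 - η)) := by
  classical
  obtain ⟨N, hNd⟩ : ∃ N, N = N₀ / 2 := ⟨_, rfl⟩
  have hN8 : 8 ^ k ≤ N := by omega
  have h28 : 2 ^ k ≤ 8 ^ k := Nat.pow_le_pow_left (by norm_num) k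
  set U : Finset ℕ := (Finset.Ico N (2 * N)).filter (fun m => ¬ P (s + 2 * h) (2 * m)) with hU
  have hcov := cover hP s k h ρ z M N δ η κ hMz hz hρz hρk hh hN8 hk hκ hκ1 hδ hδκ hη hη1
    hrough hK (fun Y h1 h2 => hY Y h1 (by omega)) U (by
      intro m hm
      rw [hU, Finset.mem_filter, Finset.mem_Ico] at hm
      exact ⟨hm.1.1, hm.1.2, hm.2⟩)
  -- the map `n ↦ n / 2`
  have hle : badc P (s + 2 * h + 2) N₀ ≤ 2 * (U.card + 1) := by
    have hb : ((Finset.Ico N₀ (2 * N₀)).filter (fun n => ¬ P (s + 2 * h + 2) n)).card =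
        badc P (s + 2 * h + 2) N₀ := by
      unfold badc
      congr
    rw [← hb]
    have hsub : ((Finset.Ico N₀ (2 * N₀)).filter (fun n => ¬ P (s + 2 * h + 2) n)) ⊆
        (U ∪ {2 * N}).image (fun m => 2 * m) ∪ (U ∪ {2 * N}).image (fun m => 2 * m + 1) := by
      intro n hn
      rw [Finset.mem_filter, Finset.mem_Ico] at hn
      have hmem : n / 2 ∈ U ∪ {2 * N} := by
        rw [Finset.mem_union, Finset.mem_singleton]
        rcases Nat.lt_or_ge (n / 2) (2 * N) with h1 | h1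
        · left
          rw [hU, Finset.mem_filter, Finset.mem_Ico]
          refine ⟨⟨by omega, h1⟩, fun hPn => hn.2 ?_⟩
          rcases Nat.mod_two_eq_zero_or_one n with h6 | h6
          · have h7 : 2 * (n / 2) = n := by omega
            rw [h7] at hPn
            exact hP.mono (by omega) hPn
          · have h7 : 2 * (n / 2) + 1 = n := by omega
            rw [← h7]
            exact hP.succ (by
              have : 0 < 8 ^ k := by positivity
              omega) hPn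
        · right
          omega
      rw [Finset.mem_union, Finset.mem_image, Finset.mem_image]
      rcases Nat.mod_two_eq_zero_or_one n with h6 | h6
      · left; exact ⟨n / 2, hmem, by omega⟩
      · right; exact ⟨n / 2, hmem, by omega⟩
    have h1 := Finset.card_le_card hsub
    have h2 := Finset.card_union_le ((U ∪ {2 * N}).image (fun m => 2 * m))
      ((U ∪ {2 * N}).image (fun m => 2 * m + 1))
    have h3 : ((U ∪ {2 * N}).image (fun m => 2 * m)).card ≤ (U ∪ {2 * N}).card :=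
      Finset.card_image_le
    have h4 : ((U ∪ {2 * N}).image (fun m => 2 * m + 1)).card ≤ (U ∪ {2 * N}).card :=
      Finset.card_image_le
    have h5 := Finset.card_union_le U {2 * N}
    rw [Finset.card_singleton] at h5
    omega
  have hleq : (badc P (s + 2 * h + 2) N₀ : ℚ) ≤ 2 * (U.card + 1) := by exact_mod_cast hle
  set X : ℚ := 4 * (k + 2) / Nat.choose ρ h + 18 * ρ / z with hX
  set A : ℚ := 16 / (η ^ 2 * κ ^ 2) with hA
  have hX0 : 0 ≤ X := by positivity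
  have hηle : η ≤ 1 := by linarith
  have hA16 : 1 ≤ A := by
    rw [hA, le_div_iff₀ (by positivity)]
    have h1 : η ^ 2 ≤ 1 := pow_le_one₀ hη.le hηle
    have h2 : κ ^ 2 ≤ 1 := pow_le_one₀ hκ.le hκ1
    have : η ^ 2 * κ ^ 2 ≤ 1 * 1 := mul_le_mul h1 h2 (by positivity) (by norm_num)
    linarith
  have hD0 : 0 ≤ δ / (1 - η) := div_nonneg hδ (by linarith)
  have h2N : (2 : ℚ) * N ≤ N₀ := by
    have : 2 * N ≤ N₀ := by omega
    exact_mod_cast this
  have hpk : (0 : ℚ) < 2 ^ k := by positivity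
  have h2A : (2 : ℚ) ≤ N₀ * (A * (1 / 2 ^ k)) := by
    have h1 : (2 : ℚ) * 2 ^ k ≤ N₀ := by
      have : 2 * 2 ^ k ≤ N₀ := by omega
      exact_mod_cast this
    have h2 : (2 : ℚ) ≤ N₀ * (1 / 2 ^ k) := by
      rw [mul_one_div, le_div_iff₀ hpk]
      exact h1
    calc (2 : ℚ) ≤ N₀ * (1 / 2 ^ k) := h2
      _ ≤ A * (N₀ * (1 / 2 ^ k)) := by
          have : (0 : ℚ) ≤ N₀ * (1 / 2 ^ k) := by positivity
          nlinarith
      _ = _ := by ring
  have hE0 : 0 ≤ A * (X + 4 / 2 ^ k) + δ / (1 - η) := by positivity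
  calc (badc P (s + 2 * h + 2) N₀ : ℚ) ≤ 2 * (U.card + 1) := hleq
    _ ≤ 2 * (N * (A * (X + 4 / 2 ^ k) + δ / (1 - η))) + 2 := by linarith
    _ = 2 * N * (A * (X + 4 / 2 ^ k) + δ / (1 - η)) + 2 := by ring
    _ ≤ N₀ * (A * (X + 4 / 2 ^ k) + δ / (1 - η)) + N₀ * (A * (1 / 2 ^ k)) :=
        add_le_add (mul_le_mul_of_nonneg_right h2N hE0) h2A
    _ = N₀ * (A * (X + 5 / 2 ^ k) + δ / (1 - η)) := by ring

end Pool.Agent.HadM
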