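import Pool.Agent.HadM.Rough

set_option autoImplicit false

namespace Pool.Agent.HadM

open Pool.Agent.HadL

/-- the number of representations -/
def rep (C R : Finset ℕ) (m : ℕ) : ℕ := ((C ×ˢ R).filter (fun q => m ≡ q.2 [MOD q.1])).card

open Finset in
theorem variance (k z M ρ N : ℕ) (hMz : ∀ p, p.Prime → p ≤ z → p ∣ M) (hz : 0 < z)
    (hρz : 2 * ρ ≤ z) (C R : Finset ℕ)
    (hC : ∀ c ∈ C, 2 ^ k ≤ c ∧ c < 2 ^ (k + 1) ∧ Nat.Coprime M c) (hR : ∀ r ∈ R, r < 2 ^ ρ) :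
    ∑ m ∈ Finset.Ico N (2 * N), ((rep C R m : ℚ) - R.card * ∑ c ∈ C, (1 : ℚ) / c) ^ 2 ≤
      N * (4 * (k + 2) * R.card + 18 * ρ / z * (R.card : ℚ) ^ 2) +
        3 * (2 ^ k) ^ 2 * (R.card : ℚ) ^ 2 := by
  classical
  obtain ⟨S, hS⟩ : ∃ S : ℚ, S = ∑ c ∈ C, (1 : ℚ) / c := ⟨_, rfl⟩
  obtain ⟨n, hn⟩ : ∃ n : ℚ, n = (R.card : ℚ) := ⟨_, rfl⟩
  obtain ⟨K, hK⟩ : ∃ K : ℚ, K = 2 ^ k := ⟨_, rfl⟩
  obtain ⟨e, he⟩ : ∃ e : ℚ, e = 18 * ρ / z := ⟨_, rfl⟩
  rw [← hS, ← hn, ← hK, ← he]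
  have hK1 : (1 : ℚ) ≤ K := by rw [hK]; exact one_le_pow₀ (by norm_num)
  have hn0 : 0 ≤ n := by rw [hn]; positivity
  have he0 : 0 ≤ e := by rw [he]; positivity
  have hcpos : ∀ c ∈ C, 0 < c := fun c hc => lt_of_lt_of_le (by positivity) (hC c hc).1
  have hCle : (C.card : ℚ) ≤ K := by
    have h1 : C ⊆ Finset.Ico (2 ^ k) (2 ^ (k + 1)) := fun c hc =>
      Finset.mem_Ico.2 ⟨(hC c hc).1, (hC c hc).2.1⟩
    have h2 := Finset.card_le_card h1
    rw [Nat.card_Ico, pow_succ] at h2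
    have h3 : C.card ≤ 2 ^ k := by omega
    rw [hK]
    exact_mod_cast h3
  have hS0 : 0 ≤ S := by
    rw [hS]; exact Finset.sum_nonneg fun c _ => by positivity
  have hS1 : S ≤ 1 := by
    have h1 : S ≤ ∑ c ∈ C, (1 : ℚ) / K := by
      rw [hS]
      refine Finset.sum_le_sum fun c hc => ?_
      have h2 : K ≤ c := by rw [hK]; exact_mod_cast (hC c hc).1
      exact one_div_le_one_div_of_le (by linarith) h2
    rw [Finset.sum_const, nsmul_eq_mul] at h1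
    refine h1.trans ?_
    rw [mul_one_div, div_le_one (by linarith)]
    exact hCle
  -- the pairs
  let T : Finset (ℕ × ℕ) := C ×ˢ R
  have hTcard : (T.card : ℚ) ≤ K * n := by
    simp only [T, Finset.card_product]
    push_cast
    rw [← hn]
    exact mul_le_mul_of_nonneg_right hCle hn0
  let F : ℕ × ℕ → ℕ → ℚ := fun q m => if m ≡ q.2 [MOD q.1] then 1 else 0
  have hrep : ∀ m, (rep C R m : ℚ) = ∑ q ∈ T, F q m := by
    intro m
    unfold rep
    rw [Finset.card_filter]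
    push_cast
    rfl
  let I : Finset ℕ := Finset.Ico N (2 * N)
  have hI : (I.card : ℚ) = N := by
    simp only [I, Nat.card_Ico]
    rw [show 2 * N - N = N by omega]
  -- second moment
  let h : ℕ → ℕ → ℕ → ℕ → ℚ := fun c r c' r' =>
    if r ≡ r' [MOD Nat.gcd c c'] then (Nat.gcd c c' : ℚ) / (c * c') else 0
  have hpairRR : ∀ r ∈ R, ∀ r' ∈ R, ∑ c ∈ C, ∑ c' ∈ C, h c r c' r' ≤
      (if r = r' then 4 * ((k : ℚ) + 2) else 0) + (S ^ 2 + e) := by
    intro r hr r' hr'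
    have hlt : ∀ a b : ℕ, a < 2 ^ ρ → b < 2 ^ ρ → a < b →
        ∑ c ∈ C, ∑ c' ∈ C, h c a c' b ≤ S ^ 2 + e := by
      intro a b ha hb hab
      have h1 := pair_sum k z M (b - a) ρ hMz (by omega) (by omega) hz hρz C hC
      rw [← hS, ← he] at h1
      refine le_trans (le_of_eq ?_) h1
      refine Finset.sum_congr rfl fun c _ => Finset.sum_congr rfl fun c' _ => ?_
      simp only [h, Nat.modEq_iff_dvd' hab.le]
    rcases lt_trichotomy r r' with h1 | h1 | h1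
    · rw [if_neg h1.ne, zero_add]
      exact hlt r r' (hR r hr) (hR r' hr') h1
    · rw [if_pos h1]
      subst h1
      have h2 := pair_sum_diag k C (fun c hc => ⟨(hC c hc).1, (hC c hc).2.1⟩)
      have h3 : ∑ c ∈ C, ∑ c' ∈ C, h c r c' r = ∑ c ∈ C, ∑ c' ∈ C, (Nat.gcd c c' : ℚ) / (c * c') := by
        refine Finset.sum_congr rfl fun c _ => Finset.sum_congr rfl fun c' _ => ?_
        simp only [h]
        rw [if_pos (Nat.ModEq.refl r)]
      rw [h3]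
      have h4 : 0 ≤ S ^ 2 := sq_nonneg S
      linarith
    · rw [if_neg h1.ne', zero_add]
      refine le_trans (le_of_eq ?_) (hlt r' r (hR r' hr') (hR r hr) h1)
      refine Finset.sum_congr rfl fun c _ => Finset.sum_congr rfl fun c' _ => ?_
      simp only [h]
      have : (r ≡ r' [MOD Nat.gcd c c']) ↔ (r' ≡ r [MOD Nat.gcd c c']) := Nat.ModEq.comm
      simp only [this]
  have hpairs : ∑ q ∈ T, ∑ q' ∈ T, h q.1 q.2 q'.1 q'.2 ≤
      4 * ((k : ℚ) + 2) * n + n ^ 2 * (S ^ 2 + e) := by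
    have h1 : ∑ q ∈ T, ∑ q' ∈ T, h q.1 q.2 q'.1 q'.2 =
        ∑ r ∈ R, ∑ r' ∈ R, ∑ c ∈ C, ∑ c' ∈ C, h c r c' r' := by
      simp only [T]
      rw [Finset.sum_product_right]
      refine Finset.sum_congr rfl fun r _ => ?_
      simp only [Finset.sum_product_right]
      rw [Finset.sum_comm]
    rw [h1]
    have h2 : ∑ r ∈ R, ∑ r' ∈ R, ∑ c ∈ C, ∑ c' ∈ C, h c r c' r' ≤
        ∑ r ∈ R, ∑ r' ∈ R, ((if r = r' then 4 * ((k : ℚ) + 2) else 0) + (S ^ 2 + e)) :=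
      Finset.sum_le_sum fun r hr => Finset.sum_le_sum fun r' hr' => hpairRR r hr r' hr'
    refine h2.trans (le_of_eq ?_)
    simp only [Finset.sum_add_distrib, Finset.sum_const, nsmul_eq_mul, ← hn]
    rw [show ∑ x ∈ R, ∑ x_1 ∈ R, (if x = x_1 then 4 * ((k : ℚ) + 2) else 0) =
      ∑ x ∈ R, 4 * ((k : ℚ) + 2) from Finset.sum_congr rfl fun x hx => by
        rw [Finset.sum_ite_eq, if_pos hx]]
    rw [Finset.sum_const, nsmul_eq_mul, ← hn]
    ring
  have hsq : ∑ m ∈ I, (rep C R m : ℚ) ^ 2 ≤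
      N * (4 * ((k : ℚ) + 2) * n + n ^ 2 * (S ^ 2 + e)) + (T.card : ℚ) ^ 2 := by
    have h1 : ∑ m ∈ I, (rep C R m : ℚ) ^ 2 = ∑ q ∈ T, ∑ q' ∈ T, ∑ m ∈ I, F q m * F q' m := by
      have h2 : ∀ m ∈ I, (rep C R m : ℚ) ^ 2 = ∑ q ∈ T, ∑ q' ∈ T, F q m * F q' m := by
        intro m _
        rw [hrep, sq, Finset.sum_mul_sum]
      rw [Finset.sum_congr rfl h2, Finset.sum_comm]
      refine Finset.sum_congr rfl fun q _ => ?_
      rw [Finset.sum_comm]
    rw [h1]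
    have h2 : ∀ q ∈ T, ∀ q' ∈ T, ∑ m ∈ I, F q m * F q' m ≤ N * h q.1 q.2 q'.1 q'.2 + 1 := by
      intro q hq q' hq'
      have hq1 := (Finset.mem_product.1 hq).1
      have hq1' := (Finset.mem_product.1 hq').1
      have h3 : ∑ m ∈ I, F q m * F q' m =
          ((I.filter (fun m => m ≡ q.2 [MOD q.1] ∧ m ≡ q'.2 [MOD q'.1])).card : ℚ) := by
        rw [Finset.card_filter]
        push_cast
        refine Finset.sum_congr rfl fun m _ => ?_
        simp only [F]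
        by_cases a : m ≡ q.2 [MOD q.1] <;> by_cases b : m ≡ q'.2 [MOD q'.1] <;> simp [a, b]
      rw [h3]
      refine (count_pair N q.1 q'.1 q.2 q'.2 (hcpos _ hq1) (hcpos _ hq1')).trans ?_
      simp only [h]
      split_ifs with h4
      · rw [mul_div_assoc]
      · simp
    refine (Finset.sum_le_sum fun q hq => Finset.sum_le_sum fun q' hq' => h2 q hq q' hq').trans ?_
    have h3 : ∑ q ∈ T, ∑ q' ∈ T, ((N : ℚ) * h q.1 q.2 q'.1 q'.2 + 1) =
        N * (∑ q ∈ T, ∑ q' ∈ T, h q.1 q.2 q'.1 q'.2) + (T.card : ℚ) ^ 2 := by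
      simp only [Finset.sum_add_distrib, ← Finset.mul_sum, Finset.sum_const, nsmul_eq_mul]
      ring
    rw [h3]
    have hN0 : (0 : ℚ) ≤ N := by positivity
    have := mul_le_mul_of_nonneg_left hpairs hN0
    linarith
  -- first moment
  have hfirst : N * (n * S) - T.card ≤ ∑ m ∈ I, (rep C R m : ℚ) := by
    have h1 : ∑ m ∈ I, (rep C R m : ℚ) = ∑ q ∈ T, ∑ m ∈ I, F q m := by
      rw [Finset.sum_congr rfl fun m _ => hrep m, Finset.sum_comm]
    rw [h1]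
    have h2 : ∀ q ∈ T, (N : ℚ) / q.1 - 1 ≤ ∑ m ∈ I, F q m := by
      intro q hq
      have hq1 := (Finset.mem_product.1 hq).1
      have h3 : ∑ m ∈ I, F q m = ((I.filter (fun m => m ≡ q.2 [MOD q.1])).card : ℚ) := by
        rw [Finset.card_filter]
        push_cast
        rfl
      rw [h3]
      exact (mod_count N q.1 q.2 (hcpos _ hq1)).2
    refine le_trans (le_of_eq ?_) (Finset.sum_le_sum h2)
    rw [Finset.sum_sub_distrib, Finset.sum_const, nsmul_eq_mul, mul_one]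
    congr 1
    simp only [T]
    rw [Finset.sum_product]
    simp only [Finset.sum_const, nsmul_eq_mul, ← hn]
    rw [hS, Finset.mul_sum, Finset.mul_sum]
    refine Finset.sum_congr rfl fun c _ => ?_
    ring
  -- expand
  have hexp : ∑ m ∈ I, ((rep C R m : ℚ) - n * S) ^ 2 =
      ∑ m ∈ I, (rep C R m : ℚ) ^ 2 - 2 * (n * S) * ∑ m ∈ I, (rep C R m : ℚ) + N * (n * S) ^ 2 := by
    have h1 : ∀ m ∈ I, ((rep C R m : ℚ) - n * S) ^ 2 =
        (rep C R m : ℚ) ^ 2 - 2 * (n * S) * (rep C R m : ℚ) + (n * S) ^ 2 := by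
      intro m _; ring
    rw [Finset.sum_congr rfl h1, Finset.sum_add_distrib, Finset.sum_sub_distrib,
      ← Finset.mul_sum, Finset.sum_const, nsmul_eq_mul, hI]
  show ∑ m ∈ I, ((rep C R m : ℚ) - n * S) ^ 2 ≤ _
  rw [hexp]
  have hμ0 : 0 ≤ n * S := mul_nonneg hn0 hS0
  have h1 := mul_le_mul_of_nonneg_left hfirst (by linarith : 0 ≤ 2 * (n * S))
  have hμn : n * S ≤ n := by nlinarith
  have hT0 : (0 : ℚ) ≤ T.card := by positivity
  have h2 : (T.card : ℚ) ^ 2 ≤ (K * n) ^ 2 := pow_le_pow_left₀ hT0 hTcard 2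
  have h3 : 2 * (n * S) * T.card ≤ 2 * n * (K * n) := by
    have : n * S * T.card ≤ n * (K * n) := mul_le_mul hμn hTcard hT0 hn0
    linarith
  have h4 : 2 * n * (K * n) ≤ 2 * K ^ 2 * n ^ 2 := by nlinarith [mul_nonneg hn0 hn0]
  have h5 : N * (4 * ((k : ℚ) + 2) * n + n ^ 2 * (S ^ 2 + e)) - 2 * (n * S) * (N * (n * S)) +
      N * (n * S) ^ 2 = N * (4 * ((k : ℚ) + 2) * n + e * n ^ 2) := by ring
  nlinarith
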